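import Pool.Agent.Work.MP_947208_co.Mod4.Pairs

/-! Pairs of spanning trees at distance one without common leaf are Hamiltonian cycles with two
disjoint edges. The final congruences. -/

set_option linter.unusedSectionVars false
set_option linter.unusedDecidableInType false
set_option linter.unusedFintypeInType false
set_option linter.unusedVariables false

namespace MP_947208_co.Mod4

open Finset

variable {V : Type*} [Fintype V] [DecidableEq V]

theorem dg_erase {C : Finset (Sym2 V)} {f : Sym2 V} (hf : f ∈ C) (v : V) :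
    dg (C.erase f) v + (if v ∈ f then 1 else 0) = dg C v := by
  unfold dg
  rw [Finset.filter_erase]
  by_cases h : v ∈ f
  · have hm : f ∈ C.filter fun e => v ∈ e := Finset.mem_filter.2 ⟨hf, h⟩
    rw [if_pos h, Finset.card_erase_of_mem hm]
    have := Finset.card_pos.2 ⟨f, hm⟩
    omega
  · have hm : f ∉ C.filter fun e => v ∈ e := fun hm => h (Finset.mem_filter.1 hm).2
    rw [if_neg h, Finset.erase_eq_of_notMem hm, add_zero]

theorem dg_insert {C : Finset (Sym2 V)} {f : Sym2 V} (hf : f ∉ C) (v : V) :
    dg (insert f C) v = dg C v + (if v ∈ f then 1 else 0) := by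
  have := dg_erase (Finset.mem_insert_self f C) v
  rw [Finset.erase_insert hf] at this
  exact this.symm

/-- The sum of the degrees over a set without crossing edges is even. -/
theorem even_sum_dg {T : Finset (Sym2 V)} (hd : ∀ e ∈ T, ¬ e.IsDiag) {X : Finset V}
    (hX : ∀ e ∈ T, ¬ cr X e) : 2 ∣ ∑ v ∈ X, dg T v := by
  classical
  unfold dg
  have := Finset.sum_card_bipartiteAbove_eq_sum_card_bipartiteBelow
    (s := X) (t := T) (fun v e => v ∈ e)
  unfold Finset.bipartiteAbove Finset.bipartiteBelow at this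
  rw [this]
  refine Finset.dvd_sum fun e he => ?_
  induction e with | _ a b =>
  have h1 := hX _ he
  rw [cr_iff] at h1
  have h2 := hd _ he
  rw [Sym2.mk_isDiag_iff] at h2
  by_cases ha : a ∈ X
  · have hb : b ∈ X := by
      by_contra hb
      exact h1 (Or.inl ⟨ha, hb⟩)
    have : (X.filter fun v => v ∈ s(a, b)) = {a, b} := by
      ext v
      simp only [Finset.mem_filter, Sym2.mem_iff, Finset.mem_insert, Finset.mem_singleton]
      constructor
      · exact fun h => h.2
      · rintro (rfl | rfl)
        · exact ⟨ha, Or.inl rfl⟩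
        · exact ⟨hb, Or.inr rfl⟩
    rw [this, Finset.card_pair h2]
  · have hb : b ∉ X := by
      intro hb
      exact h1 (Or.inr ⟨hb, ha⟩)
    have : (X.filter fun v => v ∈ s(a, b)) = ∅ := by
      ext v
      simp only [Finset.mem_filter, Sym2.mem_iff, Finset.notMem_empty, iff_false]
      rintro ⟨h3, rfl | rfl⟩
      · exact ha h3
      · exact hb h3
    rw [this, Finset.card_empty]
    exact dvd_zero 2

/-- Deleting an edge from a Hamiltonian cycle leaves a spanning tree. -/
theorem tree_of_ham {C : Finset (Sym2 V)} (hd : ∀ e ∈ C, ¬ e.IsDiag) (hC : Conn C)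
    (h2 : ∀ v, dg C v = 2) {f : Sym2 V} (hf : f ∈ C) : Tree (C.erase f) := by
  classical
  have hcard : C.card = Fintype.card V := by
    have h3 := sum_dg hd
    rw [Finset.sum_congr rfl (fun v _ => h2 v), Finset.sum_const, Finset.card_univ,
      smul_eq_mul] at h3
    omega
  have hC' := (conn_iff C).1 hC
  refine ⟨?_, ?_⟩
  · induction f with | _ x y =>
    have hxy : x ≠ y := by
      have := hd _ hf
      rwa [Sym2.mk_isDiag_iff] at this
    have hr : Rch (C.erase s(x, y)) x y := by
      by_contra hn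
      have heven := even_sum_dg (T := C.erase s(x, y))
        (fun e he => hd e (Finset.mem_of_mem_erase he)) (X := comp (C.erase s(x, y)) x)
        (fun e he => not_cr_comp he)
      have hsum : ∑ v ∈ comp (C.erase s(x, y)) x, dg (C.erase s(x, y)) v +
          ∑ v ∈ comp (C.erase s(x, y)) x, (if v ∈ s(x, y) then 1 else 0) =
          ∑ v ∈ comp (C.erase s(x, y)) x, 2 := by
        rw [← Finset.sum_add_distrib]
        refine Finset.sum_congr rfl fun v _ => ?_
        rw [dg_erase hf, h2]
      have hone : ∑ v ∈ comp (C.erase s(x, y)) x, (if v ∈ s(x, y) then 1 else 0) = 1 := by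
        rw [← Finset.card_filter]
        have : ((comp (C.erase s(x, y)) x).filter fun v => v ∈ s(x, y)) = {x} := by
          ext v
          rw [Finset.mem_filter, mem_comp, Sym2.mem_iff, Finset.mem_singleton]
          constructor
          · rintro ⟨h3, rfl | rfl⟩
            · rfl
            · exact absurd h3.symm hn
          · rintro rfl
            exact ⟨Rch.refl _, Or.inl rfl⟩
        rw [this, Finset.card_singleton]
      rw [hone, Finset.sum_const, smul_eq_mul] at hsum
      omega
    rw [conn_iff]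
    refine ⟨hC'.1, fun u v => ?_⟩
    have key : ∀ w, Rch (C.erase s(x, y)) w x := by
      intro w
      rcases reach_end hC'.2 x y w with h | h
      · exact h
      · exact h.trans hr.symm
    exact (key u).trans (key v).symm
  · rw [Finset.card_erase_of_mem hf]
    have := Finset.card_pos.2 ⟨f, hf⟩
    omega

/-- Disjoint edges. -/
def Dj (e f : Sym2 V) : Prop := ∀ v, v ∈ e → v ∉ f

open Classical in
/-- The number of ordered pairs of disjoint edges of a Hamiltonian cycle. -/
theorem card_dj {C : Finset (Sym2 V)} (hd : ∀ e ∈ C, ¬ e.IsDiag) (h2 : ∀ v, dg C v = 2) :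
    ((C ×ˢ C).filter fun p => Dj p.1 p.2).card + 3 * Fintype.card V =
      Fintype.card V * Fintype.card V := by
  have hcard : C.card = Fintype.card V := by
    have h3 := sum_dg hd
    rw [Finset.sum_congr rfl (fun v _ => h2 v), Finset.sum_const, Finset.card_univ,
      smul_eq_mul] at h3
    omega
  have h1 : ∑ p ∈ C ×ˢ C, ((univ : Finset V).filter fun v => v ∈ p.1 ∧ v ∈ p.2).card =
      ∑ v : V, 4 := by
    have := Finset.sum_card_bipartiteAbove_eq_sum_card_bipartiteBelow
      (s := C ×ˢ C) (t := (univ : Finset V)) (fun p v => v ∈ p.1 ∧ v ∈ p.2)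
    unfold Finset.bipartiteAbove Finset.bipartiteBelow at this
    rw [this]
    refine Finset.sum_congr rfl fun v _ => ?_
    have h3 : ((C ×ˢ C).filter fun p => v ∈ p.1 ∧ v ∈ p.2) =
        (C.filter fun e => v ∈ e) ×ˢ (C.filter fun e => v ∈ e) := by
      ext ⟨e, f⟩
      simp only [Finset.mem_product, Finset.mem_filter]
      tauto
    rw [h3, Finset.card_product]
    have h4 := h2 v
    unfold dg at h4
    rw [h4]
  have h3 : ∀ p ∈ C ×ˢ C, ((univ : Finset V).filter fun v => v ∈ p.1 ∧ v ∈ p.2).card +
      (if Dj p.1 p.2 then 1 else 0) = 1 + (if p.1 = p.2 then 1 else 0) := by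
    rintro ⟨e, f⟩ hp
    rw [Finset.mem_product] at hp
    simp only at hp ⊢
    by_cases hef : e = f
    · subst hef
      have h4 : ¬ Dj e e := by
        intro h
        induction e with | _ a b =>
        exact h a (Sym2.mem_mk_left _ _) (Sym2.mem_mk_left _ _)
      rw [if_neg h4, if_pos rfl]
      have h5 := card_ends (hd e hp.1)
      simp only [and_self]
      rw [h5]
    · rw [if_neg hef]
      by_cases hdj : Dj e f
      · rw [if_pos hdj]
        have : ((univ : Finset V).filter fun v => v ∈ e ∧ v ∈ f) = ∅ := by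
          ext v
          simp only [Finset.mem_filter, Finset.mem_univ, true_and, Finset.notMem_empty, iff_false]
          rintro ⟨h5, h6⟩
          exact hdj v h5 h6
        rw [this, Finset.card_empty]
      · rw [if_neg hdj]
        unfold Dj at hdj
        push Not at hdj
        obtain ⟨v, hv1, hv2⟩ := hdj
        have : ((univ : Finset V).filter fun v => v ∈ e ∧ v ∈ f) = {v} := by
          ext w
          simp only [Finset.mem_filter, Finset.mem_univ, true_and, Finset.mem_singleton]
          constructor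
          · rintro ⟨h5, h6⟩
            by_contra hwv
            apply hef
            rw [((Sym2.mem_and_mem_iff hwv).1 ⟨h5, hv1⟩), ((Sym2.mem_and_mem_iff hwv).1 ⟨h6, hv2⟩)]
          · rintro rfl
            exact ⟨hv1, hv2⟩
        rw [this, Finset.card_singleton]
  have h4 := Finset.sum_congr rfl h3
  rw [Finset.sum_add_distrib, Finset.sum_add_distrib, h1, Finset.sum_const, Finset.card_univ,
    smul_eq_mul, Finset.sum_const, smul_eq_mul, mul_one, Finset.card_product, hcard,
    ← Finset.card_filter, ← Finset.card_filter] at h4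
  have h5 : ((C ×ˢ C).filter fun p => p.1 = p.2).card = Fintype.card V := by
    rw [← hcard]
    refine Finset.card_bij' (fun p _ => p.1) (fun e _ => (e, e)) ?_ ?_ ?_ ?_
    · intro p hp
      exact (Finset.mem_product.1 (Finset.mem_filter.1 hp).1).1
    · intro e he
      exact Finset.mem_filter.2 ⟨Finset.mem_product.2 ⟨he, he⟩, rfl⟩
    · rintro ⟨e, f⟩ hp
      have := (Finset.mem_filter.1 hp).2
      simp only at this
      rw [this]
    · intro e _
      rfl
  rw [h5] at h4
  omega

open Classical in
/-- Cycles with two disjoint edges. -/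
noncomputable def Th (E : Finset (Sym2 V)) : Finset (Finset (Sym2 V) × Sym2 V × Sym2 V) :=
  (hams E ×ˢ (E ×ˢ E)).filter fun q => q.2.1 ∈ q.1 ∧ q.2.2 ∈ q.1 ∧ Dj q.2.1 q.2.2

theorem mem_Th {E : Finset (Sym2 V)} {C : Finset (Sym2 V)} {e f : Sym2 V} :
    (C, e, f) ∈ Th E ↔ C ∈ hams E ∧ e ∈ C ∧ f ∈ C ∧ Dj e f := by
  classical
  unfold Th
  rw [Finset.mem_filter, Finset.mem_product, Finset.mem_product]
  constructor
  · rintro ⟨⟨h1, _⟩, h2⟩
    exact ⟨h1, h2⟩
  · rintro ⟨h1, h2, h3, h4⟩
    exact ⟨⟨h1, (mem_hams.1 h1).1 h2, (mem_hams.1 h1).1 h3⟩, h2, h3, h4⟩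

theorem card_Th {E : Finset (Sym2 V)} (hE : ∀ e ∈ E, ¬ e.IsDiag) (h3 : 3 ≤ Fintype.card V) :
    (Th E).card = (hams E).card * (Fintype.card V * (Fintype.card V - 3)) := by
  classical
  have h1 : (Th E).card = ∑ C ∈ hams E, ((Th E).filter fun q => q.1 = C).card := by
    refine Finset.card_eq_sum_card_fiberwise ?_
    rintro ⟨C, e, f⟩ hq
    exact Finset.mem_coe.2 (mem_Th.1 (Finset.mem_coe.1 hq)).1
  rw [h1]
  have h2 : ∀ C ∈ hams E, ((Th E).filter fun q => q.1 = C).card =
      Fintype.card V * (Fintype.card V - 3) := by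
    intro C hC
    have hC' := mem_hams.1 hC
    have h4 := card_dj (fun e he => hE e (hC'.1 he)) hC'.2.2
    have h5 : ((Th E).filter fun q => q.1 = C).card =
        ((C ×ˢ C).filter fun p => Dj p.1 p.2).card := by
      refine Finset.card_bij' (fun q _ => q.2) (fun p _ => (C, p)) ?_ ?_ ?_ ?_
      · rintro ⟨C', e, f⟩ hq
        rw [Finset.mem_filter, mem_Th] at hq
        obtain ⟨⟨_, ha, hb, hc⟩, rfl⟩ := hq
        exact Finset.mem_filter.2 ⟨Finset.mem_product.2 ⟨ha, hb⟩, hc⟩
      · rintro ⟨e, f⟩ hp
        rw [Finset.mem_filter, Finset.mem_product] at hp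
        rw [Finset.mem_filter, mem_Th]
        exact ⟨⟨hC, hp.1.1, hp.1.2, hp.2⟩, rfl⟩
      · rintro ⟨C', e, f⟩ hq
        have := (Finset.mem_filter.1 hq).2
        simp only at this
        rw [this]
      · intro p _
        rfl
    rw [h5]
    obtain ⟨k, hk⟩ := Nat.exists_eq_add_of_le h3
    rw [hk] at h4 ⊢
    have : 3 + k - 3 = k := by omega
    rw [this]
    nlinarith
  rw [Finset.sum_congr rfl h2, Finset.sum_const, smul_eq_mul]

theorem near_aux (h2 : 2 ≤ Fintype.card V) {J : Finset (Sym2 V)} {e f : Sym2 V}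
    (hdJ : ∀ g ∈ J, ¬ g.IsDiag) (hde : ¬ e.IsDiag) (hdf : ¬ f.IsDiag)
    (he : e ∉ J) (hf : f ∉ J) (hA : Tree (insert e J)) (hB : Tree (insert f J))
    (hCL : CL (insert e J) (insert f J) = ∅) :
    Dj e f ∧ ∀ v, dg J v + (if v ∈ e then 1 else 0) + (if v ∈ f then 1 else 0) = 2 := by
  classical
  have hJ : J.card + 2 = Fintype.card V := by
    have := hA.2
    rw [Finset.card_insert_of_notMem he] at this
    omega
  have hlow : ∀ v, 3 ≤ 2 * dg J v + (if v ∈ e then 1 else 0) + (if v ∈ f then 1 else 0) := by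
    intro v
    have h3 := dg_pos h2 hA.1 v
    have h4 := dg_pos h2 hB.1 v
    have h5 : v ∉ CL (insert e J) (insert f J) := by
      rw [hCL]
      exact Finset.notMem_empty _
    rw [mem_CL] at h5
    rw [dg_insert he] at h3 h5
    rw [dg_insert hf] at h4 h5
    omega
  have hse : ∑ v : V, (if v ∈ e then (1 : ℤ) else 0) = 2 := by
    have := card_ends (V := V) hde
    rw [Finset.card_filter] at this
    exact_mod_cast this
  have hsf : ∑ v : V, (if v ∈ f then (1 : ℤ) else 0) = 2 := by
    have := card_ends (V := V) hdf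
    rw [Finset.card_filter] at this
    exact_mod_cast this
  have hsJ : ∑ v : V, (dg J v : ℤ) = 2 * J.card := by
    have := sum_dg hdJ
    exact_mod_cast this
  let h : V → ℤ := fun v => 2 * (dg J v : ℤ) + 2 * (if v ∈ e then (1 : ℤ) else 0) +
    2 * (if v ∈ f then (1 : ℤ) else 0) - 4
  let k : V → ℤ := fun v => if v ∈ e ∧ v ∈ f then 2 else 0
  have hhk : ∀ v ∈ (univ : Finset V), 0 ≤ h v - k v := by
    intro v _
    have h3 := hlow v
    show 0 ≤ 2 * (dg J v : ℤ) + 2 * (if v ∈ e then (1 : ℤ) else 0) +
      2 * (if v ∈ f then (1 : ℤ) else 0) - 4 - (if v ∈ e ∧ v ∈ f then 2 else 0)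
    by_cases h4 : v ∈ e <;> by_cases h5 : v ∈ f <;> simp only [h4, h5, if_true, if_false,
      and_true, and_false, and_self] at h3 ⊢ <;> push_cast <;> omega
  have hk0 : ∀ v ∈ (univ : Finset V), 0 ≤ k v := by
    intro v _
    show 0 ≤ (if v ∈ e ∧ v ∈ f then (2 : ℤ) else 0)
    split_ifs <;> norm_num
  have hsum : ∑ v : V, h v = 0 := by
    show ∑ v : V, (2 * (dg J v : ℤ) + 2 * (if v ∈ e then (1 : ℤ) else 0) +
      2 * (if v ∈ f then (1 : ℤ) else 0) - 4) = 0
    rw [Finset.sum_sub_distrib, Finset.sum_add_distrib, Finset.sum_add_distrib,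
      ← Finset.mul_sum, ← Finset.mul_sum, ← Finset.mul_sum, hse, hsf, hsJ, Finset.sum_const,
      Finset.card_univ, nsmul_eq_mul]
    have : (J.card : ℤ) + 2 = Fintype.card V := by exact_mod_cast hJ
    linarith
  have h4 : ∑ v : V, (h v - k v) = - ∑ v : V, k v := by
    rw [Finset.sum_sub_distrib, hsum, zero_sub]
  have h5 := Finset.sum_nonneg hhk
  have h6 := Finset.sum_nonneg hk0
  have h7 : ∑ v : V, k v = 0 := by linarith
  have h8 := (Finset.sum_eq_zero_iff_of_nonneg hk0).1 h7
  have h9 : ∑ v : V, (h v - k v) = 0 := by rw [h4, h7, neg_zero]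
  have h10 := (Finset.sum_eq_zero_iff_of_nonneg hhk).1 h9
  refine ⟨?_, ?_⟩
  · intro v hv hv'
    have := h8 v (Finset.mem_univ v)
    have h11 : k v = 2 := if_pos ⟨hv, hv'⟩
    rw [h11] at this
    norm_num at this
  · intro v
    have h11 := h10 v (Finset.mem_univ v)
    rw [h8 v (Finset.mem_univ v), sub_zero] at h11
    have h12 : 2 * (dg J v : ℤ) + 2 * (if v ∈ e then (1 : ℤ) else 0) +
      2 * (if v ∈ f then (1 : ℤ) else 0) - 4 = 0 := h11
    split_ifs at h12 ⊢ <;> omega

open Classical in
theorem card_near (E : Finset (Sym2 V)) (hE : ∀ e ∈ E, ¬ e.IsDiag) (h3 : 3 ≤ Fintype.card V) :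
    ((Om E).filter fun p => (p.1 \ p.2).card = 1).card = (Th E).card := by
  symm
  have hdjne : ∀ e f : Sym2 V, Dj e f → e ≠ f := by
    intro e f h hef
    subst hef
    induction e with | _ a b =>
    exact h a (Sym2.mem_mk_left _ _) (Sym2.mem_mk_left _ _)
  refine Finset.card_bij (fun q _ => (q.1.erase q.2.2, q.1.erase q.2.1)) ?_ ?_ ?_
  · rintro ⟨C, e, f⟩ hq
    rw [mem_Th] at hq
    obtain ⟨hC, he, hf, hdj⟩ := hq
    have hC' := mem_hams.1 hC
    have hd : ∀ g ∈ C, ¬ g.IsDiag := fun g hg => hE g (hC'.1 hg)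
    have hne := hdjne e f hdj
    rw [Finset.mem_filter, mem_Om]
    simp only
    refine ⟨⟨mem_trees.2 ⟨(Finset.erase_subset _ _).trans hC'.1,
      tree_of_ham hd hC'.2.1 hC'.2.2 hf⟩, mem_trees.2 ⟨(Finset.erase_subset _ _).trans hC'.1,
      tree_of_ham hd hC'.2.1 hC'.2.2 he⟩, ?_⟩, ?_⟩
    · rw [Finset.eq_empty_iff_forall_notMem]
      intro v hv
      rw [mem_CL] at hv
      have h4 := dg_erase hf v
      have h5 := dg_erase he v
      rw [hC'.2.2 v] at h4 h5
      have h6 : v ∈ f := by
        by_contra h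
        rw [if_neg h] at h4
        omega
      have h7 : v ∈ e := by
        by_contra h
        rw [if_neg h] at h5
        omega
      exact hdj v h7 h6
    · have : C.erase f \ C.erase e = {e} := by
        ext g
        simp only [Finset.mem_sdiff, Finset.mem_erase, Finset.mem_singleton]
        constructor
        · rintro ⟨⟨h4, h5⟩, h6⟩
          by_contra h7
          exact h6 ⟨h7, h5⟩
        · rintro rfl
          exact ⟨⟨hne, he⟩, fun h => h.1 rfl⟩
      rw [this, Finset.card_singleton]
  · rintro ⟨C, e, f⟩ hq ⟨C', e', f'⟩ hq' heq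
    rw [mem_Th] at hq hq'
    obtain ⟨hC, he, hf, hdj⟩ := hq
    obtain ⟨hC', he', hf', hdj'⟩ := hq'
    simp only [Prod.mk.injEq] at heq
    have hne := hdjne e f hdj
    have hne' := hdjne e' f' hdj'
    have hCC : C = C' := by
      have h4 : C = C.erase f ∪ C.erase e := by
        ext g
        simp only [Finset.mem_union, Finset.mem_erase]
        constructor
        · intro h
          by_cases h5 : g = f
          · exact Or.inr ⟨fun h6 => hne (h6 ▸ h5), h⟩
          · exact Or.inl ⟨h5, h⟩
        · rintro (h | h)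
          · exact h.2
          · exact h.2
      have h5 : C' = C'.erase f' ∪ C'.erase e' := by
        ext g
        simp only [Finset.mem_union, Finset.mem_erase]
        constructor
        · intro h
          by_cases h5 : g = f'
          · exact Or.inr ⟨fun h6 => hne' (h6 ▸ h5), h⟩
          · exact Or.inl ⟨h5, h⟩
        · rintro (h | h)
          · exact h.2
          · exact h.2
      rw [h4, h5, heq.1, heq.2]
    subst hCC
    have hff : f = f' := by
      by_contra h
      have h4 : f ∈ C.erase f' := Finset.mem_erase.2 ⟨h, hf⟩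
      rw [← heq.1] at h4
      exact (Finset.mem_erase.1 h4).1 rfl
    have hee : e = e' := by
      by_contra h
      have h4 : e ∈ C.erase e' := Finset.mem_erase.2 ⟨h, he⟩
      rw [← heq.2] at h4
      exact (Finset.mem_erase.1 h4).1 rfl
    rw [hff, hee]
  · rintro ⟨A, B⟩ hp
    rw [Finset.mem_filter, mem_Om] at hp
    simp only at hp
    obtain ⟨⟨hA, hB, hCL⟩, hone⟩ := hp
    have hA' := mem_trees.1 hA
    have hB' := mem_trees.1 hB
    have i1 : (A \ B).card + (A ∩ B).card = A.card := Finset.card_sdiff_add_card_inter A B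
    have i2 : (B \ A).card + (B ∩ A).card = B.card := Finset.card_sdiff_add_card_inter B A
    rw [Finset.inter_comm B A] at i2
    have i3 := hA'.2.2
    have i4 := hB'.2.2
    have hone' : (B \ A).card = 1 := by omega
    obtain ⟨e, he⟩ := Finset.card_eq_one.1 hone
    obtain ⟨f, hf⟩ := Finset.card_eq_one.1 hone'
    have he1 : e ∈ A ∧ e ∉ B := by
      rw [← Finset.mem_sdiff, he]
      exact Finset.mem_singleton_self e
    have hf1 : f ∈ B ∧ f ∉ A := by
      rw [← Finset.mem_sdiff, hf]
      exact Finset.mem_singleton_self f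
    have hAJ : A = insert e (A ∩ B) := by
      ext g
      rw [Finset.mem_insert, Finset.mem_inter]
      constructor
      · intro h
        by_cases h4 : g ∈ B
        · exact Or.inr ⟨h, h4⟩
        · left
          rw [← Finset.mem_singleton, ← he]
          exact Finset.mem_sdiff.2 ⟨h, h4⟩
      · rintro (rfl | h)
        · exact he1.1
        · exact h.1
    have hBJ : B = insert f (A ∩ B) := by
      ext g
      rw [Finset.mem_insert, Finset.mem_inter]
      constructor
      · intro h
        by_cases h4 : g ∈ A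
        · exact Or.inr ⟨h4, h⟩
        · left
          rw [← Finset.mem_singleton, ← hf]
          exact Finset.mem_sdiff.2 ⟨h, h4⟩
      · rintro (rfl | h)
        · exact hf1.1
        · exact h.2
    set J := A ∩ B with hJdef
    have heJ : e ∉ J := fun h => he1.2 (Finset.mem_inter.1 h).2
    have hfJ : f ∉ J := fun h => hf1.2 (Finset.mem_inter.1 h).1
    have hef : e ≠ f := fun h => he1.2 (h ▸ hf1.1)
    have haux := near_aux (by omega) (J := J) (e := e) (f := f)
      (fun g hg => hE g (hA'.1 (Finset.mem_inter.1 hg).1)) (hE e (hA'.1 he1.1))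
      (hE f (hB'.1 hf1.1)) heJ hfJ (hAJ ▸ hA'.2) (hBJ ▸ hB'.2) (by rw [← hAJ, ← hBJ]; exact hCL)
    have hfC : f ∉ insert e J := by
      rw [Finset.mem_insert]
      rintro (h | h)
      · exact hef h.symm
      · exact hfJ h
    refine ⟨(insert f (insert e J), e, f), ?_, ?_⟩
    · rw [mem_Th, mem_hams]
      refine ⟨⟨?_, ?_, ?_⟩, ?_, ?_, haux.1⟩
      · intro g hg
        rcases Finset.mem_insert.1 hg with rfl | hg
        · exact hB'.1 hf1.1
        · rw [← hAJ] at hg
          exact hA'.1 hg
      · have h4 := (conn_iff A).1 hA'.2.1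
        rw [conn_iff]
        refine ⟨h4.1, fun u v => (h4.2 u v).mono ?_⟩
        rw [← hAJ]
        exact Finset.subset_insert _ _
      · intro v
        rw [dg_insert hfC, dg_insert heJ]
        exact haux.2 v
      · exact Finset.mem_insert_of_mem (Finset.mem_insert_self _ _)
      · exact Finset.mem_insert_self _ _
    · simp only [Prod.mk.injEq]
      refine ⟨?_, ?_⟩
      · rw [Finset.erase_insert hfC, ← hAJ]
      · rw [Finset.erase_insert_of_ne (Ne.symm hef), Finset.erase_insert heJ, ← hBJ]

theorem card_Om_mod (E : Finset (Sym2 V)) (hE : ∀ e ∈ E, ¬ e.IsDiag)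
    (h3 : 3 ≤ Fintype.card V) : (Om E).card ≡
      (hams E).card * (Fintype.card V * (Fintype.card V - 3)) [MOD 4] := by
  classical
  rw [← card_Th hE h3, ← card_near E hE h3]
  have h1 : (Om E).card = ((Om E).filter fun p => 2 ≤ (p.1 \ p.2).card).card +
      ((Om E).filter fun p => ¬ 2 ≤ (p.1 \ p.2).card).card :=
    (Finset.card_filter_add_card_filter_not _).symm
  have h2 : ((Om E).filter fun p => ¬ 2 ≤ (p.1 \ p.2).card) =
      (Om E).filter fun p => (p.1 \ p.2).card = 1 := by
    refine Finset.filter_congr ?_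
    rintro ⟨A, B⟩ hp
    rw [mem_Om] at hp
    simp only at hp ⊢
    constructor
    · intro h
      by_contra h4
      have h5 : (A \ B).card = 0 := by omega
      have i1 : (A \ B).card + (A ∩ B).card = A.card := Finset.card_sdiff_add_card_inter A B
      have i3 := (mem_trees.1 hp.1).2.2
      have i4 := (mem_trees.1 hp.2.1).2.2
      have h6 : A ⊆ B := by
        rw [Finset.card_eq_zero, Finset.sdiff_eq_empty_iff_subset] at h5
        exact h5
      have h7 : A = B := Finset.eq_of_subset_of_card_le h6 (by omega)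
      subst h7
      have h8 := two_leaves (by omega) (mem_trees.1 hp.1).2
        (fun e he => hE e ((mem_trees.1 hp.1).1 he))
      rw [hp.2.2, Finset.card_empty] at h8
      omega
    · intro h
      omega
  rw [h1, h2]
  obtain ⟨k, hk⟩ := four_dvd_far (by omega) E
  rw [hk]
  unfold Nat.ModEq
  omega

/-- The sum of the squares of the numbers of spanning trees with prescribed leaves. -/
theorem sum_sq (E : Finset (Sym2 V)) (hE : ∀ e ∈ E, ¬ e.IsDiag) (h3 : 3 ≤ Fintype.card V) :
    (∑ P : Finset V, aP E P ^ 2) ≡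
      (hams E).card * (Fintype.card V * (Fintype.card V - 3)) [MOD 4] :=
  (sum_aP_sq_mod (by omega) E hE).trans (card_Om_mod E hE h3)

open Classical in
/-- The number of vertex sets `P` for which the number of spanning trees, all of whose vertices
outside `P` are leaves, is odd. -/
theorem card_odd (E : Finset (Sym2 V)) (hE : ∀ e ∈ E, ¬ e.IsDiag) (h3 : 3 ≤ Fintype.card V) :
    ((univ : Finset (Finset V)).filter fun P => Odd (aP E P)).card ≡
      (hams E).card * (Fintype.card V * (Fintype.card V - 3)) [MOD 4] := by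
  refine Nat.ModEq.trans ?_ (sum_sq E hE h3)
  rw [Finset.card_filter]
  refine Nat.ModEq.symm ?_
  refine Nat.ModEq.sum ?_
  intro P _
  by_cases h : Odd (aP E P)
  · rw [if_pos h]
    obtain ⟨k, hk⟩ := h
    rw [hk]
    unfold Nat.ModEq
    have : (2 * k + 1) ^ 2 = 4 * (k * k + k) + 1 := by ring
    rw [this]
    omega
  · rw [if_neg h]
    rw [Nat.not_odd_iff_even] at h
    obtain ⟨k, hk⟩ := h
    rw [hk]
    unfold Nat.ModEq
    have : (k + k) ^ 2 = 4 * (k * k) := by ring
    rw [this]
    omega

open Classical in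
theorem four_dvd (E : Finset (Sym2 V)) (hE : ∀ e ∈ E, ¬ e.IsDiag) (h3 : 3 ≤ Fintype.card V)
    (hn : Fintype.card V % 4 = 0 ∨ Fintype.card V % 4 = 3) :
    4 ∣ ((univ : Finset (Finset V)).filter fun P => Odd (aP E P)).card := by
  have h1 := card_odd E hE h3
  have h2 : 4 ∣ Fintype.card V * (Fintype.card V - 3) := by
    rcases hn with h | h
    · exact Dvd.dvd.mul_right (Nat.dvd_of_mod_eq_zero h) _
    · exact Dvd.dvd.mul_left ⟨Fintype.card V / 4, by omega⟩ _
  have h4 : 4 ∣ (hams E).card * (Fintype.card V * (Fintype.card V - 3)) :=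
    Dvd.dvd.mul_left h2 _
  exact (Nat.ModEq.dvd_iff h1 (dvd_refl 4)).2 h4

end MP_947208_co.Mod4
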