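import Mathlib
import Pool.Agent.Work.MP_947208_co.Star
import Pool.Agent.Work.MP_947208_co.Mod4.Near

/-! The two notions of spanning tree agree; the number of sets `P` with the star condition is
divisible by four. -/

set_option linter.unusedSectionVars false
set_option linter.unusedVariables false

namespace MP_947208_co.Mod4

open Finset

variable {V : Type} [Fintype V] [DecidableEq V]

theorem deg_id (T : Finset (Sym2 V)) (v : V) : deg id T v = dg T v := rfl

/-- An edge has an odd number of ends in `X` exactly if it crosses `X`. -/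
theorem odd_ends {X : Finset V} {a b : V} (hab : a ≠ b) :
    Odd (X.filter fun u => u ∈ s(a, b)).card ↔ cr X s(a, b) := by
  have h1 : (X.filter fun u => u ∈ s(a, b)) = X ∩ {a, b} := by
    ext u
    rw [Finset.mem_filter, Finset.mem_inter, Sym2.mem_iff, Finset.mem_insert,
      Finset.mem_singleton]
  rw [h1, cr_iff]
  by_cases ha : a ∈ X <;> by_cases hb : b ∈ X
  · have h2 : X ∩ {a, b} = {a, b} := by
      ext u
      simp only [Finset.mem_inter, Finset.mem_insert, Finset.mem_singleton]
      constructor
      · exact fun h => h.2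
      · rintro (rfl | rfl)
        · exact ⟨ha, Or.inl rfl⟩
        · exact ⟨hb, Or.inr rfl⟩
    rw [h2, Finset.card_pair hab]
    simp only [ha, hb]
    decide
  · have h2 : X ∩ {a, b} = {a} := by
      ext u
      simp only [Finset.mem_inter, Finset.mem_insert, Finset.mem_singleton]
      constructor
      · rintro ⟨h, rfl | rfl⟩
        · rfl
        · exact absurd h hb
      · rintro rfl
        exact ⟨ha, Or.inl rfl⟩
    rw [h2, Finset.card_singleton]
    simp only [ha, hb]
    decide
  · have h2 : X ∩ {a, b} = {b} := by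
      ext u
      simp only [Finset.mem_inter, Finset.mem_insert, Finset.mem_singleton]
      constructor
      · rintro ⟨h, rfl | rfl⟩
        · exact absurd h ha
        · rfl
      · rintro rfl
        exact ⟨hb, Or.inr rfl⟩
    rw [h2, Finset.card_singleton]
    simp only [ha, hb]
    decide
  · have h2 : X ∩ {a, b} = ∅ := by
      ext u
      simp only [Finset.mem_inter, Finset.mem_insert, Finset.mem_singleton, Finset.notMem_empty,
        iff_false]
      rintro ⟨h, rfl | rfl⟩
      · exact ha h
      · exact hb h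
    rw [h2, Finset.card_empty]
    simp only [ha, hb]
    decide

theorem cut_iff {T : Finset (Sym2 V)} (hT : ∀ e ∈ T, ¬ e.IsDiag) {X : Finset V} {a b : V} :
    s(a, b) ∈ cut id T X ↔ s(a, b) ∈ T ∧ cr X s(a, b) := by
  rw [mem_cut]
  constructor
  · rintro ⟨h1, h2⟩
    have hab : a ≠ b := by
      rintro rfl
      exact hT _ h1 (Sym2.mk_isDiag_iff.2 rfl)
    exact ⟨h1, (odd_ends hab).1 h2⟩
  · rintro ⟨h1, h2⟩
    have hab : a ≠ b := by
      rintro rfl
      exact hT _ h1 (Sym2.mk_isDiag_iff.2 rfl)
    exact ⟨h1, (odd_ends hab).2 h2⟩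

theorem tree_iff {T : Finset (Sym2 V)} (hT : ∀ e ∈ T, ¬ e.IsDiag) :
    Tree T ↔ _root_.MP_947208_co.Tree id T := by
  classical
  constructor
  · intro h
    refine ⟨h.2, ?_⟩
    intro S hS hev
    by_contra hne
    obtain ⟨e, he⟩ := Finset.nonempty_iff_ne_empty.2 hne
    obtain ⟨a, b, rfl⟩ : ∃ a b, e = s(a, b) := by
      induction e with | _ a b => exact ⟨a, b, rfl⟩
    have h1 := h.not_rch (hS he)
    have hSd : ∀ f ∈ S, ¬ f.IsDiag := fun f hf => hT f (hS hf)
    have h2 := cut_even (ends := id) hev (comp (T.erase s(a, b)) a)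
    have h3 : cut id S (comp (T.erase s(a, b)) a) = {s(a, b)} := by
      ext f
      obtain ⟨c, d, rfl⟩ : ∃ c d, f = s(c, d) := by
        induction f with | _ c d => exact ⟨c, d, rfl⟩
      rw [cut_iff hSd, Finset.mem_singleton]
      constructor
      · rintro ⟨h4, h5⟩
        by_contra h6
        have h7 : s(c, d) ∈ T.erase s(a, b) := Finset.mem_erase.2 ⟨h6, hS h4⟩
        exact not_cr_comp h7 h5
      · intro h4
        rw [h4]
        refine ⟨he, (cr_iff _ _ _).2 (Or.inl ⟨mem_comp.2 (Rch.refl _), ?_⟩)⟩
        intro h5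
        exact h1 (mem_comp.1 h5).symm
    rw [h3, Finset.card_singleton] at h2
    exact absurd h2 (by decide)
  · intro h
    refine ⟨?_, h.1⟩
    rw [conn_iff]
    have hne : Nonempty V := by
      rw [← Fintype.card_pos_iff]
      have := h.1
      omega
    refine ⟨hne, fun u v => ?_⟩
    by_contra hn
    have h1 : (comp T v).Nonempty := ⟨v, mem_comp.2 (Rch.refl _)⟩
    have h2 : comp T v ≠ univ := by
      intro h3
      have h4 : u ∈ comp T v := by rw [h3]; exact Finset.mem_univ _
      exact hn (mem_comp.1 h4)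
    obtain ⟨e, he⟩ := _root_.MP_947208_co.Tree.cut_nonempty h (fun e he => hT e he) h1 h2
    obtain ⟨a, b, rfl⟩ : ∃ a b, e = s(a, b) := by
      induction e with | _ a b => exact ⟨a, b, rfl⟩
    rw [cut_iff hT] at he
    exact not_cr_comp he.1 he.2

theorem aP_eq {K : Finset (Sym2 V)} (hK : ∀ e ∈ K, ¬ e.IsDiag) (P : Finset V) :
    aP K P = (aT id K P).card := by
  classical
  unfold aP
  congr 1
  ext T
  rw [Finset.mem_filter, mem_trees, mem_aT]
  constructor
  · rintro ⟨⟨h1, h2⟩, h3⟩
    exact ⟨⟨h1, (tree_iff fun e he => hK e (h1 he)).1 h2⟩, h3⟩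
  · rintro ⟨⟨h1, h2⟩, h3⟩
    exact ⟨⟨h1, (tree_iff fun e he => hK e (h1 he)).2 h2⟩, h3⟩

open Classical in
/-- The number of sets with the star condition modulo four. -/
theorem card_star (K : Finset (Sym2 V)) (hK : ∀ e ∈ K, ¬ e.IsDiag) (h3 : 3 ≤ Fintype.card V) :
    (univ.filter fun P : Finset V => Star id K P).card ≡
      (hams K).card * (Fintype.card V * (Fintype.card V - 3)) [MOD 4] := by
  have h1 := card_odd K hK h3
  have h2 : (univ.filter fun P : Finset V => Odd (aP K P)) =
      univ.filter fun P : Finset V => Star id K P := by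
    apply Finset.filter_congr
    intro P _
    rw [aP_eq hK, odd_aT (ends := id) K (fun e he => hK e he) h3]
  rw [← h2]
  exact h1

open Classical in
theorem four_dvd_star (K : Finset (Sym2 V)) (hK : ∀ e ∈ K, ¬ e.IsDiag) (h3 : 3 ≤ Fintype.card V)
    (hn : Fintype.card V % 4 = 0 ∨ Fintype.card V % 4 = 3) :
    4 ∣ (univ.filter fun P : Finset V => Star id K P).card := by
  have h1 := four_dvd K hK h3 hn
  have h2 : (univ.filter fun P : Finset V => Odd (aP K P)) =
      univ.filter fun P : Finset V => Star id K P := by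
    apply Finset.filter_congr
    intro P _
    rw [aP_eq hK, odd_aT (ends := id) K (fun e he => hK e he) h3]
  rw [← h2]
  exact h1

end MP_947208_co.Mod4
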