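import Pool.Agent.Work.MP_947208_co.Mod4.Tree

/-! A small cut determined by the intersection and the union of two spanning trees, and the
exchange across it. -/

set_option linter.unusedSectionVars false
set_option linter.unusedDecidableInType false
set_option linter.unusedFintypeInType false

namespace MP_947208_co.Mod4

open Finset

variable {V : Type*} [Fintype V] [DecidableEq V]

open Classical in
/-- The vertices reachable from `v`. -/
noncomputable def comp (J : Finset (Sym2 V)) (v : V) : Finset V :=
  univ.filter fun u => Rch J u v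

theorem mem_comp {J : Finset (Sym2 V)} {u v : V} : u ∈ comp J v ↔ Rch J u v := by
  classical
  simp [comp]

theorem comp_eq {J : Finset (Sym2 V)} {u v : V} (h : Rch J u v) : comp J u = comp J v := by
  ext w
  rw [mem_comp, mem_comp]
  exact ⟨fun h' => h'.trans h, fun h' => h'.trans h.symm⟩

/-- The set of all components. -/
noncomputable def comps (J : Finset (Sym2 V)) : Finset (Finset V) := univ.image (comp J)

theorem not_cr_comp {J : Finset (Sym2 V)} {v : V} {e : Sym2 V} (he : e ∈ J) :
    ¬ cr (comp J v) e := by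
  induction e with | _ a b =>
  rw [cr_iff, mem_comp, mem_comp]
  have h : Rch J a b := Rch.single he
  rintro (⟨h1, h2⟩ | ⟨h1, h2⟩)
  · exact h2 (h.symm.trans h1)
  · exact h2 (h.trans h1)

/-- The number of components is at least the number of vertices minus the number of edges. -/
theorem card_comps [Nonempty V] (J : Finset (Sym2 V)) :
    Fintype.card V ≤ J.card + (comps J).card := by
  classical
  obtain ⟨r⟩ := (inferInstance : Nonempty V)
  have hrep : ∀ X ∈ comps J, ∃ x, X = comp J x := by
    intro X hX
    obtain ⟨x, _, hx⟩ := Finset.mem_image.1 hX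
    exact ⟨x, hx.symm⟩
  let rep : Finset V → V := fun X => if h : X ∈ comps J then (hrep X h).choose else r
  have hrep' : ∀ X ∈ comps J, X = comp J (rep X) := by
    intro X hX
    show X = comp J (if h : X ∈ comps J then (hrep X h).choose else r)
    rw [dif_pos hX]
    exact (hrep X hX).choose_spec
  let K : Finset (Sym2 V) := J ∪ ((comps J).erase (comp J r)).image fun X => s(r, rep X)
  have hK : Conn K := by
    rw [conn_iff]
    refine ⟨⟨r⟩, fun u v => ?_⟩
    have key : ∀ w, Rch K w r := by
      intro w
      by_cases hw : comp J w = comp J r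
      · have : w ∈ comp J r := hw ▸ mem_comp.2 (Rch.refl w)
        exact (mem_comp.1 this).mono Finset.subset_union_left
      · have hm : comp J w ∈ comps J := Finset.mem_image_of_mem _ (Finset.mem_univ w)
        have h1 : w ∈ comp J (rep (comp J w)) := (hrep' _ hm) ▸ mem_comp.2 (Rch.refl w)
        have h2 : Rch K w (rep (comp J w)) := (mem_comp.1 h1).mono Finset.subset_union_left
        have h3 : s(r, rep (comp J w)) ∈ K := by
          refine Finset.mem_union_right _ (Finset.mem_image.2 ⟨comp J w, ?_, rfl⟩)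
          exact Finset.mem_erase.2 ⟨hw, hm⟩
        exact h2.trans (Rch.single h3).symm
    exact (key u).trans (key v).symm
  have h1 := hK.card_le
  have h2 : K.card ≤ J.card + ((comps J).erase (comp J r)).card :=
    (Finset.card_union_le _ _).trans (Nat.add_le_add_left Finset.card_image_le _)
  have h3 : comp J r ∈ comps J := Finset.mem_image_of_mem _ (Finset.mem_univ r)
  rw [Finset.card_erase_of_mem h3] at h2
  have h4 : 0 < (comps J).card := Finset.card_pos.2 ⟨_, h3⟩
  omega

/-- A vertex set with a small cut. -/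
def Small (J U : Finset (Sym2 V)) (X : Finset V) : Prop :=
  (∃ a, a ∈ X) ∧ (∃ b, b ∉ X) ∧ (∀ e ∈ J, ¬ cr X e) ∧ (dl U X).card ≤ 3

theorem exists_small [Nonempty V] {J S : Finset (Sym2 V)} {s : ℕ} (hJ : J.card + s + 1 =
    Fintype.card V) (hs : 1 ≤ s) (hS : S.card = 2 * s) : ∃ X, Small J (J ∪ S) X := by
  classical
  by_contra hne
  have hbig : ∀ X ∈ comps J, 4 ≤ (dl S X).card := by
    intro X hX
    by_contra hlt
    apply hne
    obtain ⟨x, _, hx⟩ := Finset.mem_image.1 hX
    subst hx
    refine ⟨comp J x, ⟨x, mem_comp.2 (Rch.refl x)⟩, ?_, fun e he => not_cr_comp he, ?_⟩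
    · by_contra hall
      have hall' : ∀ b, b ∈ comp J x := fun b => by
        by_contra hb
        exact hall ⟨b, hb⟩
      have h1 : comps J ⊆ {comp J x} := by
        intro Y hY
        obtain ⟨y, _, hy⟩ := Finset.mem_image.1 hY
        rw [Finset.mem_singleton, ← hy]
        exact comp_eq (mem_comp.1 (hall' y))
      have h2 := Finset.card_le_card h1
      rw [Finset.card_singleton] at h2
      have h3 := card_comps J
      omega
    · have h1 : dl (J ∪ S) (comp J x) ⊆ dl S (comp J x) := by
        intro e he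
        rw [mem_dl] at he ⊢
        refine ⟨?_, he.2⟩
        rcases Finset.mem_union.1 he.1 with h | h
        · exact absurd he.2 (not_cr_comp h)
        · exact h
      exact (Finset.card_le_card h1).trans (by omega)
  have h1 : ∑ X ∈ comps J, (dl S X).card ≤ 2 * S.card := by
    have h2 : ∑ X ∈ comps J, (dl S X).card =
        ∑ e ∈ S, ((comps J).filter fun X => cr X e).card := by
      unfold dl
      have := Finset.sum_card_bipartiteAbove_eq_sum_card_bipartiteBelow
        (s := comps J) (t := S) (fun X e => cr X e)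
      unfold Finset.bipartiteAbove Finset.bipartiteBelow at this
      exact this
    rw [h2]
    calc ∑ e ∈ S, ((comps J).filter fun X => cr X e).card ≤ ∑ _e ∈ S, 2 := by
          refine Finset.sum_le_sum fun e _ => ?_
          induction e with | _ u v =>
          have h3 : ((comps J).filter fun X => cr X s(u, v)) ⊆ {comp J u, comp J v} := by
            intro X hX
            rw [Finset.mem_filter] at hX
            obtain ⟨x, _, hx⟩ := Finset.mem_image.1 hX.1
            have h4 := hX.2
            rw [← hx, cr_iff, mem_comp, mem_comp] at h4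
            rw [Finset.mem_insert, Finset.mem_singleton]
            rcases h4 with h | h
            · left
              rw [← hx]
              exact (comp_eq h.1).symm
            · right
              rw [← hx]
              exact (comp_eq h.1).symm
          exact (Finset.card_le_card h3).trans Finset.card_le_two
      _ = 2 * S.card := by rw [Finset.sum_const, smul_eq_mul, mul_comm]
  have h2 : (comps J).card * 4 ≤ ∑ X ∈ comps J, (dl S X).card := by
    rw [← smul_eq_mul]
    exact Finset.card_nsmul_le_sum _ _ _ hbig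
  have h3 := card_comps J
  omega

open Classical in
/-- The chosen vertex set. -/
noncomputable def Xc (J U : Finset (Sym2 V)) : Finset V :=
  if h : ∃ X, Small J U X then h.choose else ∅

theorem Xc_spec {J U : Finset (Sym2 V)} (h : ∃ X, Small J U X) : Small J U (Xc J U) := by
  classical
  unfold Xc
  rw [dif_pos h]
  exact h.choose_spec

open Classical in
/-- The exchangeable pairs across `X`. -/
noncomputable def prs (A B : Finset (Sym2 V)) (X : Finset V) : Finset (Sym2 V × Sym2 V) :=
  ((dl A X) ×ˢ (dl B X)).filter fun p =>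
    Conn (insert p.2 (A.erase p.1)) ∧ Conn (insert p.1 (B.erase p.2))

theorem mem_prs {A B : Finset (Sym2 V)} {X : Finset V} {p : Sym2 V × Sym2 V} :
    p ∈ prs A B X ↔ p.1 ∈ dl A X ∧ p.2 ∈ dl B X ∧ Conn (insert p.2 (A.erase p.1)) ∧
      Conn (insert p.1 (B.erase p.2)) := by
  classical
  unfold prs
  rw [Finset.mem_filter, Finset.mem_product]
  tauto

theorem prs_swap {A B : Finset (Sym2 V)} {X : Finset V} {e f : Sym2 V} :
    (e, f) ∈ prs A B X ↔ (f, e) ∈ prs B A X := by
  rw [mem_prs, mem_prs]
  tauto

theorem prs_aux {A B : Finset (Sym2 V)} {X : Finset V} (hA : Tree A) (hB : Tree B)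
    (hb : ∃ b, b ∉ X) (ha : ∃ a, a ∈ X)
    (h1 : (dl A X).card = 1) (h2 : (dl B X).card ≤ 2) :
    ∃ p, prs A B X = {p} := by
  classical
  obtain ⟨e, he⟩ := Finset.card_eq_one.1 h1
  have heA : e ∈ A ∧ cr X e := by
    rw [← mem_dl, he]
    exact Finset.mem_singleton_self e
  obtain ⟨a, b, rfl, hae, hbe⟩ := heA.2
  have hodd := hB.odd_sep hae hbe
  have hsub : ((dl B X).filter fun f => ¬ Rch (B.erase f) a b).card ≤ 2 :=
    (Finset.card_filter_le _ _).trans h2
  have hone : ((dl B X).filter fun f => ¬ Rch (B.erase f) a b).card = 1 := by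
    obtain ⟨k, hk⟩ := hodd
    omega
  obtain ⟨f, hf⟩ := Finset.card_eq_one.1 hone
  refine ⟨(s(a, b), f), ?_⟩
  have hiff : ∀ g, (g ∈ dl B X ∧ ¬ Rch (B.erase g) a b) ↔ g = f := by
    intro g
    rw [← Finset.mem_filter (p := fun f => ¬ Rch (B.erase f) a b), hf, Finset.mem_singleton]
  have hAconn : ∀ g, g ∈ dl B X → Conn (insert g (A.erase s(a, b))) := by
    intro g hg
    obtain ⟨c, d, rfl, hc, hd⟩ := (mem_dl.1 hg).2
    rw [hA.exch heA.1]
    intro hr
    have hno : ∀ e' ∈ A.erase s(a, b), ¬ cr X e' := by
      intro e' he' hcr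
      have : e' ∈ dl A X := mem_dl.2 ⟨(Finset.mem_erase.1 he').2, hcr⟩
      rw [he, Finset.mem_singleton] at this
      exact (Finset.mem_erase.1 he').1 this
    exact hd ((hr.mem_iff hno).1 hc)
  ext ⟨e', g⟩
  rw [mem_prs, Finset.mem_singleton]
  show e' ∈ dl A X ∧ g ∈ dl B X ∧ Conn (insert g (A.erase e')) ∧ Conn (insert e' (B.erase g)) ↔ _
  rw [Prod.mk.injEq, he, Finset.mem_singleton]
  constructor
  · rintro ⟨h3, h4, _, h5⟩
    refine ⟨h3, (hiff g).1 ⟨h4, ?_⟩⟩
    rw [h3] at h5
    exact (hB.exch (mem_dl.1 h4).1 a b).1 h5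
  · rintro ⟨h3, h4⟩
    have h5 := (hiff g).2 h4
    refine ⟨h3, h5.1, ?_, ?_⟩
    · rw [h3]
      exact hAconn g h5.1
    · rw [h3]
      exact (hB.exch (mem_dl.1 h5.1).1 a b).2 h5.2

/-- There is exactly one exchangeable pair. -/
theorem prs_unique {A B : Finset (Sym2 V)} {X : Finset V} (hA : Tree A) (hB : Tree B)
    (hX : Small (A ∩ B) (A ∪ B) X) : ∃ p, prs A B X = {p} := by
  classical
  obtain ⟨⟨a, ha⟩, ⟨b, hb⟩, hJ, hU⟩ := hX
  have h1 : (dl A X).Nonempty := dl_nonempty ((conn_iff A).1 hA.1).2 ha hb
  have h2 : (dl B X).Nonempty := dl_nonempty ((conn_iff B).1 hB.1).2 ha hb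
  have h3 : Disjoint (dl A X) (dl B X) := by
    rw [Finset.disjoint_left]
    intro e he he'
    rw [mem_dl] at he he'
    exact hJ e (Finset.mem_inter.2 ⟨he.1, he'.1⟩) he.2
  have h4 : (dl A X).card + (dl B X).card ≤ 3 := by
    rw [← Finset.card_union_of_disjoint h3]
    refine (Finset.card_le_card ?_).trans hU
    intro e he
    rw [mem_dl]
    rcases Finset.mem_union.1 he with h | h
    · exact ⟨Finset.mem_union_left _ (mem_dl.1 h).1, (mem_dl.1 h).2⟩
    · exact ⟨Finset.mem_union_right _ (mem_dl.1 h).1, (mem_dl.1 h).2⟩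
  have h5 := Finset.card_pos.2 h1
  have h6 := Finset.card_pos.2 h2
  by_cases h7 : (dl A X).card = 1
  · exact prs_aux hA hB ⟨b, hb⟩ ⟨a, ha⟩ h7 (by omega)
  · have h8 : (dl B X).card = 1 := by omega
    obtain ⟨p, hp⟩ := prs_aux hB hA ⟨b, hb⟩ ⟨a, ha⟩ h8 (by omega)
    refine ⟨(p.2, p.1), ?_⟩
    ext ⟨e, f⟩
    rw [prs_swap, hp, Finset.mem_singleton, Finset.mem_singleton]
    constructor
    · intro h
      rw [← h]
    · intro h
      rw [Prod.mk.injEq] at h
      rw [h.1, h.2]

end MP_947208_co.Mod4
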