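import Pool.Agent.Work.MP_947208_co.Mod4.Cut

/-! Pairs of spanning trees without common leaf, modulo four. -/

set_option linter.unusedSectionVars false
set_option linter.unusedDecidableInType false
set_option linter.unusedFintypeInType false
set_option linter.unusedVariables false

namespace MP_947208_co.Mod4

open Finset

theorem four_dvd_card {α : Type*} [DecidableEq α] (σ τ : α → α) : ∀ (m : ℕ) (s : Finset α),
    s.card = m →
    (∀ x ∈ s, σ x ∈ s) → (∀ x ∈ s, τ x ∈ s) →
    (∀ x ∈ s, σ (σ x) = x) → (∀ x ∈ s, τ (τ x) = x) → (∀ x ∈ s, τ (σ x) = σ (τ x)) →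
    (∀ x ∈ s, σ x ≠ x) → (∀ x ∈ s, τ x ≠ x) → (∀ x ∈ s, τ x ≠ σ x) → 4 ∣ s.card := by
  intro m
  induction m using Nat.strong_induction_on with
  | _ m ih =>
    intro s hs hσ hτ hσσ hττ hc h1 h2 h3
    rcases s.eq_empty_or_nonempty with rfl | ⟨x, hx⟩
    · simp
    · set O : Finset α := {x, σ x, τ x, σ (τ x)} with hO
      have hxs := hσ x hx
      have hxt := hτ x hx
      have hxst := hσ _ hxt
      have d1 : x ≠ σ x := fun h => h1 x hx h.symm
      have d2 : x ≠ τ x := fun h => h2 x hx h.symm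
      have d3 : x ≠ σ (τ x) := by
        intro h
        have : σ x = τ x := by rw [h, hσσ _ hxt, ← h]
        exact h3 x hx this.symm
      have d4 : σ x ≠ τ x := fun h => h3 x hx h.symm
      have d5 : σ x ≠ σ (τ x) := by
        intro h
        have h' := congrArg σ h
        rw [hσσ _ hx, hσσ _ hxt] at h'
        exact d2 h'
      have d6 : τ x ≠ σ (τ x) := fun h => h1 _ hxt h.symm
      have hOcard : O.card = 4 := by
        rw [hO]
        rw [Finset.card_insert_of_notMem, Finset.card_insert_of_notMem,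
          Finset.card_insert_of_notMem, Finset.card_singleton]
        · simp [d6]
        · simp [d4, d5]
        · simp [d1, d2, d3]
      have hOs : O ⊆ s := by
        intro y hy
        rw [hO] at hy
        simp only [Finset.mem_insert, Finset.mem_singleton] at hy
        rcases hy with rfl | rfl | rfl | rfl
        · exact hx
        · exact hxs
        · exact hxt
        · exact hxst
      have hOσ : ∀ y ∈ O, σ y ∈ O := by
        intro y hy
        rw [hO] at hy ⊢
        simp only [Finset.mem_insert, Finset.mem_singleton] at hy ⊢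
        rcases hy with rfl | rfl | rfl | rfl
        · exact Or.inr (Or.inl rfl)
        · exact Or.inl (hσσ _ hx)
        · exact Or.inr (Or.inr (Or.inr rfl))
        · exact Or.inr (Or.inr (Or.inl (hσσ _ hxt)))
      have hOτ : ∀ y ∈ O, τ y ∈ O := by
        intro y hy
        rw [hO] at hy ⊢
        simp only [Finset.mem_insert, Finset.mem_singleton] at hy ⊢
        rcases hy with rfl | rfl | rfl | rfl
        · exact Or.inr (Or.inr (Or.inl rfl))
        · exact Or.inr (Or.inr (Or.inr (hc _ hx)))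
        · exact Or.inl (hττ _ hx)
        · refine Or.inr (Or.inl ?_)
          rw [hc _ hxt, hττ _ hx]
      have hcard : (s \ O).card + 4 = s.card := by
        rw [← hOcard]
        exact Finset.card_sdiff_add_card_eq_card hOs
      have key : 4 ∣ (s \ O).card := by
        refine ih (s \ O).card (by omega) (s \ O) rfl ?_ ?_ ?_ ?_ ?_ ?_ ?_ ?_
        · intro y hy
          rw [Finset.mem_sdiff] at hy ⊢
          refine ⟨hσ y hy.1, fun h => hy.2 ?_⟩
          have := hOσ _ h
          rwa [hσσ y hy.1] at this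
        · intro y hy
          rw [Finset.mem_sdiff] at hy ⊢
          refine ⟨hτ y hy.1, fun h => hy.2 ?_⟩
          have := hOτ _ h
          rwa [hττ y hy.1] at this
        · exact fun y hy => hσσ y (Finset.mem_sdiff.1 hy).1
        · exact fun y hy => hττ y (Finset.mem_sdiff.1 hy).1
        · exact fun y hy => hc y (Finset.mem_sdiff.1 hy).1
        · exact fun y hy => h1 y (Finset.mem_sdiff.1 hy).1
        · exact fun y hy => h2 y (Finset.mem_sdiff.1 hy).1
        · exact fun y hy => h3 y (Finset.mem_sdiff.1 hy).1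
      omega

variable {V : Type*} [Fintype V] [DecidableEq V]

open Classical in
/-- The spanning trees with edges in `E`. -/
noncomputable def trees (E : Finset (Sym2 V)) : Finset (Finset (Sym2 V)) :=
  E.powerset.filter fun T => Conn T ∧ T.card + 1 = Fintype.card V

open Classical in
/-- The number of spanning trees in which all vertices outside `P` are leaves. -/
noncomputable def aP (E : Finset (Sym2 V)) (P : Finset V) : ℕ :=
  ((trees E).filter fun T => ∀ v, v ∉ P → dg T v = 1).card

open Classical in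
/-- The Hamiltonian cycles with edges in `E`. -/
noncomputable def hams (E : Finset (Sym2 V)) : Finset (Finset (Sym2 V)) :=
  E.powerset.filter fun C => Conn C ∧ ∀ v, dg C v = 2

theorem mem_trees {E T : Finset (Sym2 V)} : T ∈ trees E ↔ T ⊆ E ∧ Tree T := by
  classical
  unfold trees Tree
  rw [Finset.mem_filter, Finset.mem_powerset]

theorem mem_hams {E C : Finset (Sym2 V)} : C ∈ hams E ↔ C ⊆ E ∧ Conn C ∧ ∀ v, dg C v = 2 := by
  classical
  unfold hams
  rw [Finset.mem_filter, Finset.mem_powerset]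

theorem dg_add (A B : Finset (Sym2 V)) (v : V) :
    dg A v + dg B v = dg (A ∪ B) v + dg (A ∩ B) v := by
  unfold dg
  rw [Finset.filter_union, Finset.filter_inter_distrib]
  exact (Finset.card_union_add_card_inter _ _).symm

theorem dg_pos (h2 : 2 ≤ Fintype.card V) {T : Finset (Sym2 V)} (hT : Conn T) (v : V) :
    1 ≤ dg T v := by
  have : Nontrivial V := Fintype.one_lt_card_iff_nontrivial.1 h2
  obtain ⟨w, hw⟩ := exists_ne v
  obtain ⟨e, he⟩ := dl_nonempty ((conn_iff T).1 hT).2 (X := {v}) (a := v) (b := w)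
    (Finset.mem_singleton_self v) (fun h => hw (Finset.mem_singleton.1 h))
  rw [mem_dl] at he
  obtain ⟨he1, a, b, rfl, ha, _⟩ := he
  rw [Finset.mem_singleton] at ha
  subst ha
  exact Finset.card_pos.2 ⟨_, Finset.mem_filter.2 ⟨he1, Sym2.mem_mk_left _ _⟩⟩

/-- The two ends of an edge which is no loop. -/
theorem card_ends {e : Sym2 V} (he : ¬ e.IsDiag) :
    ((univ : Finset V).filter fun v => v ∈ e).card = 2 := by
  induction e with | _ a b =>
  rw [Sym2.mk_isDiag_iff] at he
  have : ((univ : Finset V).filter fun v => v ∈ s(a, b)) = {a, b} := by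
    ext v
    simp
  rw [this, Finset.card_pair he]

theorem sum_dg {T : Finset (Sym2 V)} (hT : ∀ e ∈ T, ¬ e.IsDiag) :
    ∑ v, dg T v = 2 * T.card := by
  unfold dg
  have := Finset.sum_card_bipartiteAbove_eq_sum_card_bipartiteBelow
    (s := (univ : Finset V)) (t := T) (fun v e => v ∈ e)
  unfold Finset.bipartiteAbove Finset.bipartiteBelow at this
  rw [this, Finset.sum_congr rfl (fun e he => card_ends (hT e he)), Finset.sum_const,
    smul_eq_mul, mul_comm]

open Classical in
/-- The common leaves. -/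
noncomputable def CL (A B : Finset (Sym2 V)) : Finset V :=
  univ.filter fun v => dg A v = 1 ∧ dg B v = 1

theorem mem_CL {A B : Finset (Sym2 V)} {v : V} : v ∈ CL A B ↔ dg A v = 1 ∧ dg B v = 1 := by
  classical
  simp [CL]

theorem CL_comm (A B : Finset (Sym2 V)) : CL A B = CL B A := by
  ext v
  rw [mem_CL, mem_CL, and_comm]

theorem two_leaves (h2 : 2 ≤ Fintype.card V) {T : Finset (Sym2 V)} (hT : Tree T)
    (hd : ∀ e ∈ T, ¬ e.IsDiag) : 2 ≤ (CL T T).card := by
  classical
  have h1 := sum_dg hd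
  have h3 : ∑ v : V, (2 : ℕ) ≤ ∑ v : V, (dg T v + if v ∈ CL T T then 1 else 0) := by
    refine Finset.sum_le_sum fun v _ => ?_
    have := dg_pos h2 hT.1 v
    by_cases h : v ∈ CL T T
    · rw [if_pos h]
      omega
    · rw [if_neg h]
      rw [mem_CL] at h
      omega
  rw [Finset.sum_add_distrib, h1, Finset.sum_const, Finset.card_univ, smul_eq_mul] at h3
  rw [Finset.sum_ite_mem, Finset.univ_inter, Finset.sum_const, smul_eq_mul, mul_one] at h3
  have := hT.2
  omega

/-- The counting identity. -/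
theorem sum_aP_sq (E : Finset (Sym2 V)) :
    ∑ P : Finset V, aP E P ^ 2 = ∑ p ∈ trees E ×ˢ trees E, 2 ^ (CL p.1 p.2).card := by
  classical
  have h1 : ∀ P : Finset V, aP E P ^ 2 =
      ((trees E ×ˢ trees E).filter fun p => ∀ v, v ∉ P → v ∈ CL p.1 p.2).card := by
    intro P
    rw [sq]
    unfold aP
    rw [← Finset.card_product]
    congr 1
    ext ⟨A, B⟩
    simp only [Finset.mem_product, Finset.mem_filter, mem_CL]
    constructor
    · rintro ⟨⟨h1, h2⟩, h3, h4⟩
      exact ⟨⟨h1, h3⟩, fun v hv => ⟨h2 v hv, h4 v hv⟩⟩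
    · rintro ⟨⟨h1, h3⟩, h⟩
      exact ⟨⟨h1, fun v hv => (h v hv).1⟩, h3, fun v hv => (h v hv).2⟩
  rw [Finset.sum_congr rfl fun P _ => h1 P]
  have := Finset.sum_card_bipartiteAbove_eq_sum_card_bipartiteBelow
    (s := (univ : Finset (Finset V))) (t := trees E ×ˢ trees E)
    (fun P p => ∀ v, v ∉ P → v ∈ CL p.1 p.2)
  unfold Finset.bipartiteAbove Finset.bipartiteBelow at this
  rw [this]
  refine Finset.sum_congr rfl fun p _ => ?_
  rw [← Finset.card_powerset]
  refine Finset.card_bij' (fun P _ => Pᶜ) (fun Q _ => Qᶜ) ?_ ?_ ?_ ?_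
  · intro P hP
    rw [Finset.mem_filter] at hP
    rw [Finset.mem_powerset]
    intro v hv
    exact hP.2 v (Finset.mem_compl.1 hv)
  · intro Q hQ
    rw [Finset.mem_powerset] at hQ
    rw [Finset.mem_filter]
    refine ⟨Finset.mem_univ _, fun v hv => hQ ?_⟩
    by_contra h
    exact hv (Finset.mem_compl.2 h)
  · intro P _
    exact compl_compl P
  · intro Q _
    exact compl_compl Q

open Classical in
/-- Ordered pairs of spanning trees without common leaf. -/
noncomputable def Om (E : Finset (Sym2 V)) : Finset (Finset (Sym2 V) × Finset (Sym2 V)) :=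
  (trees E ×ˢ trees E).filter fun p => CL p.1 p.2 = ∅

theorem mem_Om {E : Finset (Sym2 V)} {p : Finset (Sym2 V) × Finset (Sym2 V)} :
    p ∈ Om E ↔ p.1 ∈ trees E ∧ p.2 ∈ trees E ∧ CL p.1 p.2 = ∅ := by
  classical
  unfold Om
  rw [Finset.mem_filter, Finset.mem_product, and_assoc]

theorem even_card_of_invol {α : Type*} [DecidableEq α] (s : Finset α) (σ : α → α)
    (h1 : ∀ x ∈ s, σ x ∈ s) (h2 : ∀ x ∈ s, σ (σ x) = x) (h3 : ∀ x ∈ s, σ x ≠ x) :
    2 ∣ s.card := by
  have h : ∑ _x ∈ s, (1 : ZMod 2) = 0 := by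
    refine Finset.sum_involution (fun a _ => σ a) ?_ ?_ ?_ ?_
    · intro a _
      decide
    · intro a ha _
      exact h3 a ha
    · intro a ha
      exact h1 a ha
    · intro a ha
      exact h2 a ha
  rw [Finset.sum_const, nsmul_eq_mul, mul_one] at h
  exact (ZMod.natCast_eq_zero_iff _ _).1 h

theorem sum_aP_sq_mod (h2 : 2 ≤ Fintype.card V) (E : Finset (Sym2 V))
    (hE : ∀ e ∈ E, ¬ e.IsDiag) : (∑ P : Finset V, aP E P ^ 2) ≡ (Om E).card [MOD 4] := by
  classical
  rw [sum_aP_sq]
  have hsplit : ∑ p ∈ trees E ×ˢ trees E, 2 ^ (CL p.1 p.2).card =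
      ∑ p ∈ (trees E ×ˢ trees E).filter (fun p => CL p.1 p.2 = ∅), 2 ^ (CL p.1 p.2).card +
      (∑ p ∈ ((trees E ×ˢ trees E).filter (fun p => ¬ CL p.1 p.2 = ∅)).filter
        (fun p => (CL p.1 p.2).card = 1), 2 ^ (CL p.1 p.2).card +
      ∑ p ∈ ((trees E ×ˢ trees E).filter (fun p => ¬ CL p.1 p.2 = ∅)).filter
        (fun p => ¬ (CL p.1 p.2).card = 1), 2 ^ (CL p.1 p.2).card) := by
    rw [Finset.sum_filter_add_sum_filter_not, Finset.sum_filter_add_sum_filter_not]
  rw [hsplit]
  have hA : ∑ p ∈ (trees E ×ˢ trees E).filter (fun p => CL p.1 p.2 = ∅),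
      2 ^ (CL p.1 p.2).card = (Om E).card := by
    rw [Finset.sum_congr rfl (g := fun _ => 1)]
    · rw [Finset.sum_const, smul_eq_mul, mul_one]
      rfl
    · intro p hp
      rw [(Finset.mem_filter.1 hp).2, Finset.card_empty, pow_zero]
  have hB : 4 ∣ ∑ p ∈ ((trees E ×ˢ trees E).filter (fun p => ¬ CL p.1 p.2 = ∅)).filter
        (fun p => (CL p.1 p.2).card = 1), 2 ^ (CL p.1 p.2).card := by
    rw [Finset.sum_congr rfl (g := fun _ => 2)]
    · rw [Finset.sum_const, smul_eq_mul]
      have : 2 ∣ (((trees E ×ˢ trees E).filter (fun p => ¬ CL p.1 p.2 = ∅)).filter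
        (fun p => (CL p.1 p.2).card = 1)).card := by
        refine even_card_of_invol _ Prod.swap ?_ ?_ ?_
        · rintro ⟨A, B⟩ hp
          simp only [Finset.mem_filter, Finset.mem_product, Prod.fst_swap, Prod.snd_swap] at hp ⊢
          rw [CL_comm B A]
          exact ⟨⟨⟨hp.1.1.2, hp.1.1.1⟩, hp.1.2⟩, hp.2⟩
        · intro x _
          exact Prod.swap_swap x
        · rintro ⟨A, B⟩ hp heq
          simp only [Finset.mem_filter, Finset.mem_product] at hp
          have hAB : B = A := (Prod.mk.inj heq).1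
          subst hAB
          have h3 := mem_trees.1 hp.1.1.1
          have := two_leaves h2 h3.2 (fun e he => hE e (h3.1 he))
          omega
      omega
    · intro p hp
      rw [(Finset.mem_filter.1 hp).2, pow_one]
  have hC : 4 ∣ ∑ p ∈ ((trees E ×ˢ trees E).filter (fun p => ¬ CL p.1 p.2 = ∅)).filter
        (fun p => ¬ (CL p.1 p.2).card = 1), 2 ^ (CL p.1 p.2).card := by
    refine Finset.dvd_sum fun p hp => ?_
    rw [Finset.mem_filter, Finset.mem_filter] at hp
    have h3 : 0 < (CL p.1 p.2).card :=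
      Finset.card_pos.2 (Finset.nonempty_iff_ne_empty.2 hp.1.2)
    have h4 : 2 ≤ (CL p.1 p.2).card := by
      have := hp.2
      omega
    exact pow_dvd_pow 2 h4
  rw [hA]
  obtain ⟨x, hx⟩ := hB
  obtain ⟨y, hy⟩ := hC
  rw [hx, hy]
  unfold Nat.ModEq
  omega

/-! ### The exchange -/

open Classical in
/-- The exchange involution. -/
noncomputable def ex (p : Finset (Sym2 V) × Finset (Sym2 V)) :
    Finset (Sym2 V) × Finset (Sym2 V) :=
  if h : ∃ q, prs p.1 p.2 (Xc (p.1 ∩ p.2) (p.1 ∪ p.2)) = {q} then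
    (insert h.choose.2 (p.1.erase h.choose.1), insert h.choose.1 (p.2.erase h.choose.2)) else p

theorem ex_eq {A B : Finset (Sym2 V)} {e f : Sym2 V}
    (h : prs A B (Xc (A ∩ B) (A ∪ B)) = {(e, f)}) :
    ex (A, B) = (insert f (A.erase e), insert e (B.erase f)) := by
  classical
  have h' : ∃ q, prs (A, B).1 (A, B).2 (Xc ((A, B).1 ∩ (A, B).2) ((A, B).1 ∪ (A, B).2)) = {q} :=
    ⟨(e, f), h⟩
  unfold ex
  rw [dif_pos h']
  have h2 : h'.choose = (e, f) := by
    have h3 := h'.choose_spec
    have h4 : ({(e, f)} : Finset (Sym2 V × Sym2 V)) = {h'.choose} := h.symm.trans h3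
    exact (Finset.singleton_injective h4).symm
  rw [h2]

/-- What the exchange needs. -/
theorem small_of {A B : Finset (Sym2 V)} (hA : Tree A) (hB : Tree B) (hne : 1 ≤ (A \ B).card) :
    Small (A ∩ B) (A ∪ B) (Xc (A ∩ B) (A ∪ B)) := by
  classical
  apply Xc_spec
  have : Nonempty V := ((conn_iff A).1 hA.1).1
  have h1 : (A \ B).card + (A ∩ B).card = A.card := Finset.card_sdiff_add_card_inter A B
  have h2 : (B \ A).card + (B ∩ A).card = B.card := Finset.card_sdiff_add_card_inter B A
  rw [Finset.inter_comm B A] at h2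
  have h3 := hA.2
  have h4 := hB.2
  have h5 : A ∪ B = (A ∩ B) ∪ ((A \ B) ∪ (B \ A)) := by
    ext e
    simp only [Finset.mem_union, Finset.mem_inter, Finset.mem_sdiff]
    tauto
  have h6 : ((A \ B) ∪ (B \ A)).card = 2 * (A \ B).card := by
    rw [Finset.card_union_of_disjoint]
    · omega
    · rw [Finset.disjoint_left]
      intro e he he'
      exact (Finset.mem_sdiff.1 he').2 (Finset.mem_sdiff.1 he).1
  rw [h5]
  exact exists_small (s := (A \ B).card) (by omega) hne h6

theorem ex_data {A B : Finset (Sym2 V)} (hA : Tree A) (hB : Tree B) (hne : 1 ≤ (A \ B).card) :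
    ∃ e f, prs A B (Xc (A ∩ B) (A ∪ B)) = {(e, f)} ∧ e ∈ A ∧ e ∉ B ∧ f ∈ B ∧ f ∉ A ∧
      Tree (insert f (A.erase e)) ∧ Tree (insert e (B.erase f)) := by
  classical
  have hS := small_of hA hB hne
  obtain ⟨⟨e, f⟩, hp⟩ := prs_unique hA hB hS
  have hm : (e, f) ∈ prs A B (Xc (A ∩ B) (A ∪ B)) := by
    rw [hp]
    exact Finset.mem_singleton_self _
  rw [mem_prs] at hm
  obtain ⟨h1, h2, h3, h4⟩ := hm
  have h1 := mem_dl.1 h1
  have h2 := mem_dl.1 h2
  have he : e ∉ B := fun h => hS.2.2.1 e (Finset.mem_inter.2 ⟨h1.1, h⟩) h1.2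
  have hf : f ∉ A := fun h => hS.2.2.1 f (Finset.mem_inter.2 ⟨h, h2.1⟩) h2.2
  refine ⟨e, f, hp, h1.1, he, h2.1, hf, ⟨h3, ?_⟩, ⟨h4, ?_⟩⟩
  · rw [Finset.card_insert_of_notMem (fun h => hf (Finset.mem_of_mem_erase h)),
      Finset.card_erase_of_mem h1.1]
    have := Finset.card_pos.2 ⟨_, h1.1⟩
    have := hA.2
    omega
  · rw [Finset.card_insert_of_notMem (fun h => he (Finset.mem_of_mem_erase h)),
      Finset.card_erase_of_mem h2.1]
    have := Finset.card_pos.2 ⟨_, h2.1⟩
    have := hB.2
    omega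

theorem ex_inter {A B : Finset (Sym2 V)} {e f : Sym2 V} (h1 : e ∈ A) (h2 : e ∉ B) (h3 : f ∈ B)
    (h4 : f ∉ A) : insert f (A.erase e) ∩ insert e (B.erase f) = A ∩ B := by
  have hef : e ≠ f := fun h => h2 (h ▸ h3)
  ext g
  simp only [Finset.mem_inter, Finset.mem_insert, Finset.mem_erase]
  by_cases hg : g = e
  · subst hg; simp [h2, hef]
  · by_cases hg' : g = f
    · subst hg'; simp [h4, hg]
    · simp [hg, hg']

theorem ex_union {A B : Finset (Sym2 V)} {e f : Sym2 V} (h1 : e ∈ A) (h2 : e ∉ B) (h3 : f ∈ B)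
    (h4 : f ∉ A) : insert f (A.erase e) ∪ insert e (B.erase f) = A ∪ B := by
  have hef : e ≠ f := fun h => h2 (h ▸ h3)
  ext g
  simp only [Finset.mem_union, Finset.mem_insert, Finset.mem_erase]
  by_cases hg : g = e
  · subst hg; simp [h1]
  · by_cases hg' : g = f
    · subst hg'; simp [h3]
    · simp [hg, hg']

theorem erase_insert_back {A : Finset (Sym2 V)} {e f : Sym2 V} (h1 : e ∈ A) (h4 : f ∉ A) :
    insert e ((insert f (A.erase e)).erase f) = A := by
  rw [Finset.erase_insert (fun h => h4 (Finset.mem_of_mem_erase h)), Finset.insert_erase h1]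

theorem CL_eq_empty_iff (h2 : 2 ≤ Fintype.card V) {A B : Finset (Sym2 V)} (hA : Conn A)
    (hB : Conn B) : CL A B = ∅ ↔ ∀ v, 3 ≤ dg (A ∪ B) v + dg (A ∩ B) v := by
  constructor
  · intro h v
    rw [← dg_add]
    have h3 := dg_pos h2 hA v
    have h4 := dg_pos h2 hB v
    have h5 : v ∉ CL A B := by
      rw [h]
      exact Finset.notMem_empty _
    rw [mem_CL] at h5
    omega
  · intro h
    rw [Finset.eq_empty_iff_forall_notMem]
    intro v hv
    rw [mem_CL] at hv
    have := h v
    rw [← dg_add] at this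
    omega

open Classical in
/-- The pairs at distance at least two. -/
theorem four_dvd_far (h2 : 2 ≤ Fintype.card V) (E : Finset (Sym2 V)) :
    4 ∣ ((Om E).filter fun p => 2 ≤ (p.1 \ p.2).card).card := by
  refine four_dvd_card Prod.swap ex _ _ rfl ?_ ?_ ?_ ?_ ?_ ?_ ?_ ?_
  · rintro ⟨A, B⟩ hp
    rw [Finset.mem_filter, mem_Om] at hp ⊢
    simp only [Prod.fst_swap, Prod.snd_swap] at hp ⊢
    refine ⟨⟨hp.1.2.1, hp.1.1, by rw [CL_comm]; exact hp.1.2.2⟩, ?_⟩
    have h1 : (A \ B).card + (A ∩ B).card = A.card := Finset.card_sdiff_add_card_inter A B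
    have h2 : (B \ A).card + (B ∩ A).card = B.card := Finset.card_sdiff_add_card_inter B A
    rw [Finset.inter_comm B A] at h2
    have h3 := (mem_trees.1 hp.1.1).2.2
    have h4 := (mem_trees.1 hp.1.2.1).2.2
    have := hp.2
    omega
  · rintro ⟨A, B⟩ hp
    rw [Finset.mem_filter, mem_Om] at hp
    simp only at hp
    obtain ⟨⟨hA, hB, hCL⟩, hfar⟩ := hp
    have hA' := mem_trees.1 hA
    have hB' := mem_trees.1 hB
    obtain ⟨e, f, hprs, h3, h4, h5, h6, h7, h8⟩ := ex_data hA'.2 hB'.2 (by omega)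
    rw [ex_eq hprs, Finset.mem_filter, mem_Om]
    simp only
    refine ⟨⟨mem_trees.2 ⟨?_, h7⟩, mem_trees.2 ⟨?_, h8⟩, ?_⟩, ?_⟩
    · intro g hg
      rcases Finset.mem_insert.1 hg with rfl | hg
      · exact hB'.1 h5
      · exact hA'.1 (Finset.mem_of_mem_erase hg)
    · intro g hg
      rcases Finset.mem_insert.1 hg with rfl | hg
      · exact hA'.1 h3
      · exact hB'.1 (Finset.mem_of_mem_erase hg)
    · rw [CL_eq_empty_iff h2 h7.1 h8.1, ex_inter h3 h4 h5 h6, ex_union h3 h4 h5 h6]
      exact (CL_eq_empty_iff h2 hA'.2.1 hB'.2.1).1 hCL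
    · have i1 := Finset.card_sdiff_add_card_inter (insert f (A.erase e)) (insert e (B.erase f))
      have i2 := Finset.card_sdiff_add_card_inter A B
      rw [ex_inter h3 h4 h5 h6] at i1
      have i3 := h7.2
      have i4 := hA'.2.2
      omega
  · intro x _
    exact Prod.swap_swap x
  · rintro ⟨A, B⟩ hp
    rw [Finset.mem_filter, mem_Om] at hp
    simp only at hp
    obtain ⟨⟨hA, hB, hCL⟩, hfar⟩ := hp
    have hA' := mem_trees.1 hA
    have hB' := mem_trees.1 hB
    obtain ⟨e, f, hprs, h3, h4, h5, h6, h7, h8⟩ := ex_data hA'.2 hB'.2 (by omega)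
    rw [ex_eq hprs]
    have hinter := ex_inter h3 h4 h5 h6
    have hunion := ex_union h3 h4 h5 h6
    have hne : 1 ≤ (insert f (A.erase e) \ insert e (B.erase f)).card := by
      have i1 := Finset.card_sdiff_add_card_inter (insert f (A.erase e)) (insert e (B.erase f))
      have i2 := Finset.card_sdiff_add_card_inter A B
      rw [hinter] at i1
      have i3 := h7.2
      have i4 := hA'.2.2
      omega
    obtain ⟨e', f', hprs', _⟩ := ex_data h7 h8 hne
    have hm : (f, e) ∈ prs (insert f (A.erase e)) (insert e (B.erase f))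
        (Xc (insert f (A.erase e) ∩ insert e (B.erase f))
          (insert f (A.erase e) ∪ insert e (B.erase f))) := by
      rw [hinter, hunion]
      have hm0 : (e, f) ∈ prs A B (Xc (A ∩ B) (A ∪ B)) := by
        rw [hprs]
        exact Finset.mem_singleton_self _
      rw [mem_prs] at hm0 ⊢
      refine ⟨mem_dl.2 ⟨Finset.mem_insert_self _ _, (mem_dl.1 hm0.2.1).2⟩,
        mem_dl.2 ⟨Finset.mem_insert_self _ _, (mem_dl.1 hm0.1).2⟩, ?_, ?_⟩
      · show Conn (insert e ((insert f (A.erase e)).erase f))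
        rw [erase_insert_back h3 h6]
        exact hA'.2.1
      · show Conn (insert f ((insert e (B.erase f)).erase e))
        rw [erase_insert_back h5 h4]
        exact hB'.2.1
    have heq : (f, e) = (e', f') := by
      rw [hprs', Finset.mem_singleton] at hm
      exact hm
    rw [Prod.mk.injEq] at heq
    rw [← heq.1, ← heq.2] at hprs'
    rw [ex_eq hprs', erase_insert_back h3 h6, erase_insert_back h5 h4]
  · rintro ⟨A, B⟩ hp
    rw [Finset.mem_filter, mem_Om] at hp
    simp only at hp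
    obtain ⟨⟨hA, hB, hCL⟩, hfar⟩ := hp
    have hA' := mem_trees.1 hA
    have hB' := mem_trees.1 hB
    obtain ⟨e, f, hprs, h3, h4, h5, h6, h7, h8⟩ := ex_data hA'.2 hB'.2 (by omega)
    have hswap : prs B A (Xc (B ∩ A) (B ∪ A)) = {(f, e)} := by
      rw [Finset.inter_comm B A, Finset.union_comm B A]
      ext ⟨x, y⟩
      rw [prs_swap, hprs, Finset.mem_singleton, Finset.mem_singleton, Prod.mk.injEq,
        Prod.mk.injEq, and_comm]
    show ex (B, A) = Prod.swap (ex (A, B))
    rw [ex_eq hswap, ex_eq hprs]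
    rfl
  · rintro ⟨A, B⟩ hp heq
    rw [Finset.mem_filter, mem_Om] at hp
    simp only at hp
    have hAB : B = A := (Prod.mk.inj heq).1
    subst hAB
    have := hp.2
    rw [Finset.sdiff_self, Finset.card_empty] at this
    omega
  · rintro ⟨A, B⟩ hp heq
    rw [Finset.mem_filter, mem_Om] at hp
    simp only at hp
    obtain ⟨⟨hA, hB, hCL⟩, hfar⟩ := hp
    have hA' := mem_trees.1 hA
    have hB' := mem_trees.1 hB
    obtain ⟨e, f, hprs, h3, h4, h5, h6, h7, h8⟩ := ex_data hA'.2 hB'.2 (by omega)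
    rw [ex_eq hprs, Prod.mk.injEq] at heq
    apply h6
    rw [← heq.1]
    exact Finset.mem_insert_self _ _
  · rintro ⟨A, B⟩ hp heq
    rw [Finset.mem_filter, mem_Om] at hp
    simp only at hp
    obtain ⟨⟨hA, hB, hCL⟩, hfar⟩ := hp
    have hA' := mem_trees.1 hA
    have hB' := mem_trees.1 hB
    obtain ⟨e, f, hprs, h3, h4, h5, h6, h7, h8⟩ := ex_data hA'.2 hB'.2 (by omega)
    rw [ex_eq hprs] at heq
    have h9 : insert f (A.erase e) = B := (Prod.mk.inj heq).1
    have h10 : A \ B ⊆ {e} := by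
      intro g hg
      rw [Finset.mem_sdiff] at hg
      rw [Finset.mem_singleton]
      by_contra hge
      apply hg.2
      rw [← h9]
      exact Finset.mem_insert_of_mem (Finset.mem_erase.2 ⟨hge, hg.1⟩)
    have := Finset.card_le_card h10
    rw [Finset.card_singleton] at this
    omega

end MP_947208_co.Mod4
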