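import Mathlib

/-! Spanning trees as sets of edges: cuts, fundamental cuts, exchange. -/

set_option linter.unusedSectionVars false
set_option linter.unusedDecidableInType false
set_option linter.unusedFintypeInType false

namespace MP_947208_co.Mod4

open Finset

variable {V : Type*} [Fintype V] [DecidableEq V]

/-- The degree of a vertex in a set of edges. -/
def dg (T : Finset (Sym2 V)) (v : V) : ℕ := (T.filter fun e => v ∈ e).card

/-- A set of edges connects all vertices. -/
def Conn (T : Finset (Sym2 V)) : Prop :=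
  (SimpleGraph.fromEdgeSet (T : Set (Sym2 V))).Connected

/-- Reachability inside a set of edges. -/
def Rch (T : Finset (Sym2 V)) (u v : V) : Prop :=
  Relation.ReflTransGen (fun a b => s(a, b) ∈ T) u v

theorem Rch.refl {T : Finset (Sym2 V)} (u : V) : Rch T u u := Relation.ReflTransGen.refl

theorem Rch.trans {T : Finset (Sym2 V)} {u v w : V} (h : Rch T u v) (h' : Rch T v w) :
    Rch T u w := Relation.ReflTransGen.trans h h'

theorem Rch.symm {T : Finset (Sym2 V)} {u v : V} (h : Rch T u v) : Rch T v u := by
  induction h with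
  | refl => exact Relation.ReflTransGen.refl
  | @tail b c _ h2 ih =>
    refine Relation.ReflTransGen.head ?_ ih
    rwa [Sym2.eq_swap]

theorem Rch.single {T : Finset (Sym2 V)} {u v : V} (h : s(u, v) ∈ T) : Rch T u v :=
  Relation.ReflTransGen.single h

theorem Rch.mono {T T' : Finset (Sym2 V)} (hT : T ⊆ T') {u v : V} (h : Rch T u v) :
    Rch T' u v := Relation.ReflTransGen.mono (fun _ _ hab => hT hab) _ _ h

/-- Invariance along reachability. -/
theorem Rch.inv {T : Finset (Sym2 V)} {α : Type*} (g : V → α)
    (hg : ∀ u v, s(u, v) ∈ T → g u = g v) {u v : V} (h : Rch T u v) : g u = g v := by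
  induction h with
  | refl => rfl
  | tail _ h2 ih => rw [ih]; exact hg _ _ h2

theorem conn_iff (T : Finset (Sym2 V)) :
    Conn T ↔ Nonempty V ∧ ∀ u v, Rch T u v := by
  have key : ∀ u v, (SimpleGraph.fromEdgeSet (T : Set (Sym2 V))).Reachable u v ↔ Rch T u v := by
    intro u v
    rw [SimpleGraph.reachable_iff_reflTransGen]
    constructor
    · intro h
      refine Relation.ReflTransGen.mono ?_ _ _ h
      intro a b hab
      rw [SimpleGraph.fromEdgeSet_adj] at hab
      exact hab.1
    · intro h
      induction h with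
      | refl => exact Relation.ReflTransGen.refl
      | @tail b c _ h2 ih =>
        by_cases hbc : b = c
        · rw [← hbc]; exact ih
        · refine ih.tail ?_
          rw [SimpleGraph.fromEdgeSet_adj]
          exact ⟨h2, hbc⟩
  unfold Conn
  constructor
  · intro h
    exact ⟨h.nonempty, fun u v => (key u v).1 (h.preconnected u v)⟩
  · rintro ⟨h1, h2⟩
    exact { preconnected := fun u v => (key u v).2 (h2 u v), nonempty := h1 }

theorem Conn.card_le {T : Finset (Sym2 V)} (h : Conn T) : Fintype.card V ≤ T.card + 1 := by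
  have h1 := SimpleGraph.Connected.card_vert_le_card_edgeSet_add_one h
  have h2 : Nat.card (SimpleGraph.fromEdgeSet (T : Set (Sym2 V))).edgeSet ≤ T.card := by
    rw [SimpleGraph.edgeSet_fromEdgeSet]
    have : Nat.card ((T : Set (Sym2 V)) \ {e | e.IsDiag} : Set (Sym2 V)) ≤
        Nat.card (T : Set (Sym2 V)) :=
      Nat.card_mono (Finset.finite_toSet T) Set.sdiff_subset
    refine this.trans ?_
    simp
  rw [Nat.card_eq_fintype_card] at h1
  omega

/-- A spanning tree: connected with one edge less than vertices. -/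
def Tree (T : Finset (Sym2 V)) : Prop := Conn T ∧ T.card + 1 = Fintype.card V

/-- An edge crosses a vertex set. -/
def cr (X : Finset V) (e : Sym2 V) : Prop := ∃ u v, e = s(u, v) ∧ u ∈ X ∧ v ∉ X

theorem cr_iff (X : Finset V) (u v : V) :
    cr X s(u, v) ↔ (u ∈ X ∧ v ∉ X) ∨ (v ∈ X ∧ u ∉ X) := by
  constructor
  · rintro ⟨a, b, h, ha, hb⟩
    rw [Sym2.eq_iff] at h
    rcases h with ⟨rfl, rfl⟩ | ⟨rfl, rfl⟩
    · exact Or.inl ⟨ha, hb⟩
    · exact Or.inr ⟨ha, hb⟩
  · rintro (⟨h1, h2⟩ | ⟨h1, h2⟩)
    · exact ⟨u, v, rfl, h1, h2⟩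
    · exact ⟨v, u, Sym2.eq_swap, h1, h2⟩

open Classical in
/-- The edges of `T` crossing `X`. -/
noncomputable def dl (T : Finset (Sym2 V)) (X : Finset V) : Finset (Sym2 V) :=
  T.filter (cr X)

theorem mem_dl {T : Finset (Sym2 V)} {X : Finset V} {e : Sym2 V} :
    e ∈ dl T X ↔ e ∈ T ∧ cr X e := by
  classical
  unfold dl
  rw [Finset.mem_filter]

theorem Rch.mem_iff {T : Finset (Sym2 V)} {X : Finset V} (hX : ∀ e ∈ T, ¬ cr X e) {u v : V}
    (h : Rch T u v) : u ∈ X ↔ v ∈ X := by
  have := Rch.inv (fun w => w ∈ X) (fun a b hab => by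
    have h1 := hX _ hab
    rw [cr_iff] at h1
    apply propext
    tauto) h
  exact this ▸ Iff.rfl

/-- A connected set of edges crosses every nonempty proper vertex set. -/
theorem dl_nonempty {T : Finset (Sym2 V)} (hT : ∀ u v, Rch T u v) {X : Finset V} {a b : V}
    (ha : a ∈ X) (hb : b ∉ X) : (dl T X).Nonempty := by
  by_contra hne
  rw [Finset.not_nonempty_iff_eq_empty] at hne
  have h : ∀ e ∈ T, ¬ cr X e := by
    intro e he hcr
    have : e ∈ dl T X := mem_dl.2 ⟨he, hcr⟩
    rw [hne] at this
    exact absurd this (Finset.notMem_empty _)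
  exact hb (((hT a b).mem_iff h).1 ha)

/-- After deleting an edge every vertex still reaches one of its ends. -/
theorem reach_end {T : Finset (Sym2 V)} (hT : ∀ u v, Rch T u v) (a b : V) (v : V) :
    Rch (T.erase s(a, b)) v a ∨ Rch (T.erase s(a, b)) v b := by
  have h := hT a v
  induction h with
  | refl => exact Or.inl (Rch.refl _)
  | @tail c d _ h2 ih =>
    by_cases he : s(c, d) = s(a, b)
    · rw [Sym2.eq_iff] at he
      rcases he with ⟨_, rfl⟩ | ⟨_, rfl⟩
      · exact Or.inr (Rch.refl _)
      · exact Or.inl (Rch.refl _)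
    · have hd : Rch (T.erase s(a, b)) d c := by
        exact (Rch.single (Finset.mem_erase.2 ⟨he, h2⟩)).symm
      rcases ih with h | h
      · exact Or.inl (hd.trans h)
      · exact Or.inr (hd.trans h)

theorem Tree.not_rch {T : Finset (Sym2 V)} (hT : Tree T) {a b : V} (h : s(a, b) ∈ T) :
    ¬ Rch (T.erase s(a, b)) a b := by
  intro hr
  have h1 := (conn_iff T).1 hT.1
  have h2 : Conn (T.erase s(a, b)) := by
    rw [conn_iff]
    refine ⟨h1.1, fun u v => ?_⟩
    have key : ∀ w, Rch (T.erase s(a, b)) w a := by
      intro w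
      rcases reach_end h1.2 a b w with h | h
      · exact h
      · exact h.trans hr.symm
    exact (key u).trans (key v).symm
  have h3 := h2.card_le
  rw [Finset.card_erase_of_mem h] at h3
  have h4 : 0 < T.card := Finset.card_pos.2 ⟨_, h⟩
  have h5 := hT.2
  omega

/-- Exchange. -/
theorem Tree.exch {T : Finset (Sym2 V)} (hT : Tree T) {e : Sym2 V} (he : e ∈ T) (c d : V) :
    Conn (insert s(c, d) (T.erase e)) ↔ ¬ Rch (T.erase e) c d := by
  have h1 := (conn_iff T).1 hT.1
  induction e with | _ a b =>
  constructor
  · intro hc hr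
    have h2 : Conn (T.erase s(a, b)) := by
      rw [conn_iff] at hc ⊢
      refine ⟨h1.1, fun u v => ?_⟩
      have h3 := hc.2 u v
      induction h3 with
      | refl => exact Rch.refl _
      | @tail x y _ h4 ih =>
        refine ih.trans ?_
        rcases Finset.mem_insert.1 h4 with h5 | h5
        · rw [Sym2.eq_iff] at h5
          rcases h5 with ⟨rfl, rfl⟩ | ⟨rfl, rfl⟩
          · exact hr
          · exact hr.symm
        · exact Rch.single h5
    have h3 := h2.card_le
    rw [Finset.card_erase_of_mem he] at h3
    have h4 : 0 < T.card := Finset.card_pos.2 ⟨_, he⟩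
    have h5 := hT.2
    omega
  · intro hn
    rw [conn_iff]
    refine ⟨h1.1, fun u v => ?_⟩
    set T' := T.erase s(a, b) with hT'
    have hm : ∀ {x y}, Rch T' x y → Rch (insert s(c, d) T') x y := fun h =>
      h.mono (Finset.subset_insert _ _)
    have hcd : Rch (insert s(c, d) T') c d := Rch.single (Finset.mem_insert_self _ _)
    have hab : Rch (insert s(c, d) T') a b := by
      rcases reach_end h1.2 a b c with h | h <;> rcases reach_end h1.2 a b d with h' | h'
      · exact absurd (h.trans h'.symm) hn
      · exact (hm h).symm.trans (hcd.trans (hm h'))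
      · exact (hm h').symm.trans (hcd.symm.trans (hm h))
      · exact absurd (h.trans h'.symm) hn
    have key : ∀ w, Rch (insert s(c, d) T') w a := by
      intro w
      rcases reach_end h1.2 a b w with h | h
      · exact hm h
      · exact (hm h).trans hab.symm
    exact (key u).trans (key v).symm

open Classical in
/-- The number of edges of a tree crossing `X` and separating `a ∈ X` from `b ∉ X` is odd. -/
theorem Tree.odd_sep {T : Finset (Sym2 V)} (hT : Tree T) {X : Finset V} {a b : V}
    (ha : a ∈ X) (hb : b ∉ X) :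
    Odd (((dl T X).filter fun f => ¬ Rch (T.erase f) a b).card) := by
  have h1 := (conn_iff T).1 hT.1
  let g : V → ZMod 2 := fun v => (if v ∈ X then 1 else 0) +
    ∑ f ∈ dl T X, if Rch (T.erase f) a v then (1 : ZMod 2) else 0
  have hg : ∀ u v, s(u, v) ∈ T → g u = g v := by
    intro u v huv
    have hother : ∀ f, f ≠ s(u, v) → (Rch (T.erase f) a u ↔ Rch (T.erase f) a v) := by
      intro f hf
      have h2 : Rch (T.erase f) u v := Rch.single (Finset.mem_erase.2 ⟨Ne.symm hf, huv⟩)
      exact ⟨fun h => h.trans h2, fun h => h.trans h2.symm⟩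
    have hself : (Rch (T.erase s(u, v)) a u ↔ ¬ Rch (T.erase s(u, v)) a v) := by
      constructor
      · intro h h'
        exact hT.not_rch huv (h.symm.trans h')
      · intro h
        rcases reach_end h1.2 u v a with h' | h'
        · exact h'
        · exact absurd h' h
    by_cases hcr : cr X s(u, v)
    · have hmem : s(u, v) ∈ dl T X := mem_dl.2 ⟨huv, hcr⟩
      have hsum : ∀ w, (∑ f ∈ dl T X, if Rch (T.erase f) a w then (1 : ZMod 2) else 0) =
          (if Rch (T.erase s(u, v)) a w then (1 : ZMod 2) else 0) +
          ∑ f ∈ (dl T X).erase s(u, v), if Rch (T.erase f) a w then (1 : ZMod 2) else 0 := by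
        intro w
        exact (Finset.add_sum_erase _ (fun f => if Rch (T.erase f) a w then (1 : ZMod 2) else 0)
          hmem).symm
      have hrest : (∑ f ∈ (dl T X).erase s(u, v), if Rch (T.erase f) a u then (1 : ZMod 2) else 0)
          = ∑ f ∈ (dl T X).erase s(u, v), if Rch (T.erase f) a v then (1 : ZMod 2) else 0 := by
        refine Finset.sum_congr rfl fun f hf => ?_
        have := hother f (Finset.mem_erase.1 hf).1
        by_cases h : Rch (T.erase f) a u
        · rw [if_pos h, if_pos (this.1 h)]
        · rw [if_neg h, if_neg (fun h' => h (this.2 h'))]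
      show (if u ∈ X then 1 else 0) + _ = (if v ∈ X then 1 else 0) + _
      rw [hsum u, hsum v, hrest]
      rw [cr_iff] at hcr
      by_cases hs : Rch (T.erase s(u, v)) a u
      · rw [if_pos hs, if_neg (hself.1 hs)]
        rcases hcr with ⟨h3, h4⟩ | ⟨h3, h4⟩
        · rw [if_pos h3, if_neg h4, ← add_assoc, ← add_assoc]
          congr 1
        · rw [if_pos h3, if_neg h4, ← add_assoc, ← add_assoc]
          congr 1
      · have hs' : Rch (T.erase s(u, v)) a v := by
          by_contra h
          exact hs (hself.2 h)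
        rw [if_neg hs, if_pos hs']
        rcases hcr with ⟨h3, h4⟩ | ⟨h3, h4⟩
        · rw [if_pos h3, if_neg h4, ← add_assoc, ← add_assoc]
          congr 1
        · rw [if_pos h3, if_neg h4, ← add_assoc, ← add_assoc]
          congr 1
    · have hX : (u ∈ X ↔ v ∈ X) := by
        rw [cr_iff] at hcr
        tauto
      have hrest : (∑ f ∈ dl T X, if Rch (T.erase f) a u then (1 : ZMod 2) else 0)
          = ∑ f ∈ dl T X, if Rch (T.erase f) a v then (1 : ZMod 2) else 0 := by
        refine Finset.sum_congr rfl fun f hf => ?_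
        have hne : f ≠ s(u, v) := by
          rintro rfl
          exact hcr (mem_dl.1 hf).2
        have := hother f hne
        by_cases h : Rch (T.erase f) a u
        · rw [if_pos h, if_pos (this.1 h)]
        · rw [if_neg h, if_neg (fun h' => h (this.2 h'))]
      show (if u ∈ X then 1 else 0) + _ = (if v ∈ X then 1 else 0) + _
      rw [hrest]
      by_cases h : u ∈ X
      · rw [if_pos h, if_pos (hX.1 h)]
      · rw [if_neg h, if_neg (fun h' => h (hX.2 h'))]
  have hab : g a = g b := Rch.inv g hg (h1.2 a b)
  have hga : g a = 1 + ((dl T X).card : ZMod 2) := by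
    show (if a ∈ X then 1 else 0) + _ = _
    rw [if_pos ha]
    congr 1
    rw [Finset.sum_congr rfl (g := fun _ => (1 : ZMod 2))]
    · simp
    · intro f _
      rw [if_pos (Rch.refl _)]
  have hgb : g b = (((dl T X).filter fun f => Rch (T.erase f) a b).card : ZMod 2) := by
    show (if b ∈ X then 1 else 0) + _ = _
    rw [if_neg hb, zero_add, Finset.sum_ite]
    simp
  have hcard := Finset.card_filter_add_card_filter_not (s := dl T X)
    (fun f => Rch (T.erase f) a b)
  have h5 : (((dl T X).filter fun f => ¬ Rch (T.erase f) a b).card : ZMod 2) = 1 := by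
    have h6 : ((((dl T X).filter fun f => Rch (T.erase f) a b).card +
      ((dl T X).filter fun f => ¬ Rch (T.erase f) a b).card : ℕ) : ZMod 2) =
      ((dl T X).card : ZMod 2) := by rw [hcard]
    push_cast at h6
    rw [← hgb, ← hab, hga] at h6
    have h7 : (1 : ZMod 2) + (1 : ZMod 2) = 0 := by decide
    have h8 : ∀ x y : ZMod 2, 1 + x + y = x → y = 1 := by decide
    exact h8 _ _ h6
  exact (ZMod.natCast_eq_one_iff_odd).1 h5

end MP_947208_co.Mod4
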